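import Mathlib

set_option autoImplicit false
set_option linter.unusedSectionVars false

/-!
# Complemented subspaces and the decomposition method
-/

namespace Q97.Dyad

open Filter Topology Set
open scoped ENNReal

variable {𝕜 : Type*} [RCLike 𝕜]

section MkInf

variable {X : Type*} [NormedAddCommGroup X] [NormedSpace 𝕜 X] {κ : Type*} {F : κ → Type*}
  [∀ k, NormedAddCommGroup (F k)] [∀ k, NormedSpace 𝕜 (F k)]

/-- A bounded family of operators defines an operator into the `ℓ_∞`-sum. -/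
noncomputable def mkInf (A : ∀ k, X →L[𝕜] F k) (c : ℝ) (h0 : 0 ≤ c)
    (hc : ∀ k x, ‖A k x‖ ≤ c * ‖x‖) : X →L[𝕜] lp F ∞ :=
  LinearMap.mkContinuous
    { toFun := fun x => ⟨fun k => A k x, memℓp_infty ⟨c * ‖x‖, by
        rintro _ ⟨k, rfl⟩
        exact hc k x⟩⟩
      map_add' := fun x y => by
        ext k
        exact map_add (A k) x y
      map_smul' := fun a x => by
        ext k
        exact map_smul (A k) a x } c
    (fun x => lp.norm_le_of_forall_le (mul_nonneg h0 (norm_nonneg x)) fun k => hc k x)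

theorem mkInf_apply (A : ∀ k, X →L[𝕜] F k) (c : ℝ) (h0 : 0 ≤ c)
    (hc : ∀ k x, ‖A k x‖ ≤ c * ‖x‖) (x : X) (k : κ) : mkInf A c h0 hc x k = A k x := rfl

/-- The coordinate maps of an `ℓ_∞`-sum. -/
noncomputable def evInf (k : κ) : lp F ∞ →L[𝕜] F k :=
  LinearMap.mkContinuous
    { toFun := fun f => f k
      map_add' := fun _ _ => rfl
      map_smul' := fun _ _ => rfl } 1
    (fun f => by rw [one_mul]; exact lp.norm_apply_le_norm (by simp) f k)

theorem evInf_apply (k : κ) (f : lp F ∞) : evInf (𝕜 := 𝕜) k f = f k := rfl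

theorem norm_evInf_le (k : κ) (f : lp F ∞) : ‖f k‖ ≤ ‖f‖ :=
  lp.norm_apply_le_norm (by simp) f k

end MkInf

/-- `Y` is isomorphic to a complemented subspace of `Z`. -/
def Compl (𝕜 Y Z : Type*) [RCLike 𝕜] [NormedAddCommGroup Y] [NormedSpace 𝕜 Y]
    [NormedAddCommGroup Z] [NormedSpace 𝕜 Z] : Prop :=
  ∃ (i : Y →L[𝕜] Z) (p : Z →L[𝕜] Y), ∀ y, p (i y) = y

section Abstract

variable {Y Z : Type*} [NormedAddCommGroup Y] [NormedSpace 𝕜 Y] [NormedAddCommGroup Z]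
  [NormedSpace 𝕜 Z]

theorem Compl.trans {X : Type*} [NormedAddCommGroup X] [NormedSpace 𝕜 X] (h1 : Compl 𝕜 X Y)
    (h2 : Compl 𝕜 Y Z) : Compl 𝕜 X Z := by
  obtain ⟨i, p, h1⟩ := h1
  obtain ⟨j, q, h2⟩ := h2
  exact ⟨j.comp i, p.comp q, fun x => by
    rw [ContinuousLinearMap.comp_apply, ContinuousLinearMap.comp_apply, h2, h1]⟩

/-- If `Z` is complemented in `Y` and `Z` is isomorphic to its square, then `Y` is isomorphic to
`Z × Y`. -/
theorem absorb (h : Compl 𝕜 Z Y) (e : Z ≃L[𝕜] Z × Z) : Nonempty (Y ≃L[𝕜] Z × Y) := by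
  obtain ⟨i, p, hp⟩ := h
  let f : Y →L[𝕜] Z × Y := ((ContinuousLinearMap.fst 𝕜 Z Z).comp ((e : Z →L[𝕜] Z × Z).comp p)).prod
    (ContinuousLinearMap.id 𝕜 Y - i.comp p +
      i.comp ((ContinuousLinearMap.snd 𝕜 Z Z).comp ((e : Z →L[𝕜] Z × Z).comp p)))
  let g : Z × Y →L[𝕜] Y := (ContinuousLinearMap.id 𝕜 Y - i.comp p).comp
      (ContinuousLinearMap.snd 𝕜 Z Y) +
    i.comp ((e.symm : Z × Z →L[𝕜] Z).comp ((ContinuousLinearMap.fst 𝕜 Z Y).prod
      (p.comp (ContinuousLinearMap.snd 𝕜 Z Y))))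
  have hf : ∀ y, f y = ((e (p y)).1, y - i (p y) + i (e (p y)).2) := fun y => rfl
  have hg : ∀ z y, g (z, y) = y - i (p y) + i (e.symm (z, p y)) := fun z y => rfl
  refine ⟨ContinuousLinearEquiv.equivOfInverse f g ?_ ?_⟩
  · intro y
    rw [hf, hg]
    have h1 : p (y - i (p y) + i (e (p y)).2) = (e (p y)).2 := by
      rw [map_add, map_sub, hp, hp, sub_self, zero_add]
    rw [h1]
    simp only [Prod.mk.eta, ContinuousLinearEquiv.symm_apply_apply]
    abel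
  · rintro ⟨z, y⟩
    rw [hg]
    have h1 : p (y - i (p y) + i (e.symm (z, p y))) = e.symm (z, p y) := by
      rw [map_add, map_sub, hp, hp, sub_self, zero_add]
    rw [hf, h1]
    simp only [ContinuousLinearEquiv.apply_symm_apply]
    congr 1
    abel

/-- If `Y` is complemented in `Z`, then `ℓ_∞(Z)` is isomorphic to `Y × ℓ_∞(Z)`. -/
theorem shift (h : Compl 𝕜 Y Z) :
    Nonempty (lp (fun _ : ℕ => Z) ∞ ≃L[𝕜] Y × lp (fun _ : ℕ => Z) ∞) := by
  obtain ⟨i, p, hp⟩ := h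
  let P : Z →L[𝕜] Z := i.comp p
  let N : Z →L[𝕜] Z := ContinuousLinearMap.id 𝕜 Z - i.comp p
  have hP : ∀ z, P z = i (p z) := fun z => rfl
  have hN : ∀ z, N z = z - i (p z) := fun z => rfl
  let ev : ℕ → lp (fun _ : ℕ => Z) ∞ →L[𝕜] Z := fun n => evInf n
  have hev : ∀ n (f : lp (fun _ : ℕ => Z) ∞), ev n f = f n := fun n f => rfl
  -- from `ℓ_∞(Z)` to `Y × ℓ_∞(Z)`
  let f2 : lp (fun _ : ℕ => Z) ∞ →L[𝕜] lp (fun _ : ℕ => Z) ∞ :=
    mkInf (fun n => P.comp (ev (n + 1)) + N.comp (ev n)) (‖P‖ + ‖N‖) (by positivity) (by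
      intro n x
      rw [ContinuousLinearMap.add_apply, ContinuousLinearMap.comp_apply,
        ContinuousLinearMap.comp_apply, add_mul]
      refine (norm_add_le _ _).trans (add_le_add ?_ ?_)
      · exact (P.le_opNorm _).trans (mul_le_mul_of_nonneg_left (norm_evInf_le _ _) (norm_nonneg _))
      · exact (N.le_opNorm _).trans (mul_le_mul_of_nonneg_left (norm_evInf_le _ _) (norm_nonneg _)))
  let f : lp (fun _ : ℕ => Z) ∞ →L[𝕜] Y × lp (fun _ : ℕ => Z) ∞ := (p.comp (ev 0)).prod f2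
  -- from `Y × ℓ_∞(Z)` to `ℓ_∞(Z)`
  let g' : ∀ n : ℕ, (Y × lp (fun _ : ℕ => Z) ∞) →L[𝕜] Z := fun n =>
    Nat.casesOn n (i.comp (ContinuousLinearMap.fst 𝕜 Y _) +
      (N.comp (ev 0)).comp (ContinuousLinearMap.snd 𝕜 Y _))
      (fun m => ((P.comp (ev m)) + (N.comp (ev (m + 1)))).comp (ContinuousLinearMap.snd 𝕜 Y _))
  have hg'0 : ∀ y z, g' 0 (y, z) = i y + N (z 0) := fun y z => rfl
  have hg'1 : ∀ n y z, g' (n + 1) (y, z) = P (z n) + N (z (n + 1)) := fun n y z => rfl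
  let g : (Y × lp (fun _ : ℕ => Z) ∞) →L[𝕜] lp (fun _ : ℕ => Z) ∞ :=
    mkInf g' (‖i‖ + ‖P‖ + ‖N‖) (by positivity) (by
      rintro n ⟨y, z⟩
      have hy : ‖y‖ ≤ ‖(y, z)‖ := norm_fst_le (y, z)
      have hz : ‖z‖ ≤ ‖(y, z)‖ := norm_snd_le (y, z)
      have hzn : ∀ n, ‖z n‖ ≤ ‖(y, z)‖ := fun n => (norm_evInf_le n z).trans hz
      rcases n with _ | n
      · rw [hg'0, add_mul, add_mul]
        refine (norm_add_le _ _).trans ?_
        have h1 := (i.le_opNorm y).trans (mul_le_mul_of_nonneg_left hy (norm_nonneg _))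
        have h2 := (N.le_opNorm (z 0)).trans (mul_le_mul_of_nonneg_left (hzn 0) (norm_nonneg _))
        have h3 : 0 ≤ ‖P‖ * ‖(y, z)‖ := by positivity
        linarith
      · rw [hg'1, add_mul, add_mul]
        refine (norm_add_le _ _).trans ?_
        have h1 := (P.le_opNorm (z n)).trans (mul_le_mul_of_nonneg_left (hzn n) (norm_nonneg _))
        have h2 := (N.le_opNorm (z (n + 1))).trans
          (mul_le_mul_of_nonneg_left (hzn (n + 1)) (norm_nonneg _))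
        have h3 : 0 ≤ ‖i‖ * ‖(y, z)‖ := by positivity
        linarith)
  have hf1 : ∀ z, (f z).1 = p (z 0) := fun z => rfl
  have hf2 : ∀ z n, (f z).2 n = P (z (n + 1)) + N (z n) := fun z n => rfl
  have hg0 : ∀ y z, g (y, z) 0 = i y + N (z 0) := fun y z => rfl
  have hg1 : ∀ n y z, g (y, z) (n + 1) = P (z n) + N (z (n + 1)) := fun n y z => rfl
  have hpN : ∀ z, p (N z) = 0 := by
    intro z
    rw [hN, map_sub, hp, sub_self]
  have hPN : ∀ z, P (N z) = 0 := by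
    intro z
    rw [hP, hpN, map_zero]
  have hPP : ∀ z, P (P z) = P z := by
    intro z
    rw [hP, hP, hp]
  have hNP : ∀ z, N (P z) = 0 := by
    intro z
    rw [hN, hP, hp, sub_self]
  have hNi : ∀ y, N (i y) = 0 := by
    intro y
    rw [hN, hp, sub_self]
  have hNN : ∀ z, N (N z) = N z := by
    intro z
    rw [hN (N z), hpN, map_zero, sub_zero]
  have hsum : ∀ z, P z + N z = z := by
    intro z
    rw [hP, hN]
    abel
  refine ⟨ContinuousLinearEquiv.equivOfInverse f g ?_ ?_⟩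
  · intro z
    have e : f z = ((f z).1, (f z).2) := rfl
    ext n
    rw [e]
    rcases n with _ | n
    · rw [hg0, hf1, hf2, map_add, hNP, hNN, zero_add]
      exact hsum (z 0)
    · rw [hg1, hf2, hf2, map_add, map_add, hPP, hPN, hNP, hNN, add_zero, zero_add]
      exact hsum (z (n + 1))
  · rintro ⟨y, z⟩
    apply Prod.ext
    · rw [hf1, hg0, map_add, hp, hpN, add_zero]
    · apply lp.ext
      funext n
      rw [hf2, hg1, map_add, hPP, hPN, add_zero]
      rcases n with _ | n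
      · rw [hg0, map_add, hNi, hNN, zero_add]
        exact hsum (z 0)
      · rw [hg1, map_add, hNP, hNN, zero_add]
        exact hsum (z (n + 1))

/-- Pelczynski's decomposition method. -/
theorem decomposition (h1 : Compl 𝕜 Y Z) (h2 : Compl 𝕜 Z Y)
    (h3 : Nonempty (lp (fun _ : ℕ => Z) ∞ ≃L[𝕜] Z)) : Nonempty (Y ≃L[𝕜] Z) := by
  obtain ⟨e⟩ := h3
  obtain ⟨s1⟩ := shift (𝕜 := 𝕜) h1
  have hZZ : Compl 𝕜 Z Z := ⟨ContinuousLinearMap.id 𝕜 Z, ContinuousLinearMap.id 𝕜 Z, fun _ => rfl⟩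
  obtain ⟨s2⟩ := shift (𝕜 := 𝕜) hZZ
  -- `Z ≃ Z × Z`
  have e1 : Z ≃L[𝕜] Z × Z :=
    (e.symm.trans s2).trans ((ContinuousLinearEquiv.refl 𝕜 Z).prodCongr e)
  -- `Z ≃ Y × Z`
  have e2 : Z ≃L[𝕜] Y × Z :=
    (e.symm.trans s1).trans ((ContinuousLinearEquiv.refl 𝕜 Y).prodCongr e)
  obtain ⟨e3⟩ := absorb h2 e1
  exact ⟨(e3.trans (ContinuousLinearEquiv.prodComm 𝕜 Z Y)).trans e2.symm⟩

end Abstract

end Q97.Dyad
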