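import Mathlib

set_option autoImplicit false
set_option linter.unusedSectionVars false

/-!
# Dyadic intervals of the unit interval and averages
-/

namespace Q97.Dyad

open MeasureTheory Filter Topology Set

/-- Lebesgue measure on the unit interval. -/
noncomputable abbrev mu : Measure ℝ := volume.restrict (Icc (0 : ℝ) 1)

instance : IsProbabilityMeasure mu := ⟨by simp⟩

/-- The index of the dyadic interval of order `k` that contains `t`. -/
noncomputable def q (k : ℕ) (t : ℝ) : ℕ := ⌊2 ^ k * t⌋₊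

theorem measurable_q (k : ℕ) : Measurable (q k) := by
  unfold q
  fun_prop

theorem q_succ_div (k : ℕ) (t : ℝ) : q (k + 1) t / 2 = q k t := by
  unfold q
  rw [← Nat.floor_div_ofNat]
  congr 1
  rw [pow_succ]
  ring

theorem q_add_div (k m : ℕ) (t : ℝ) : q (k + m) t / 2 ^ m = q k t := by
  induction m with
  | zero => simp
  | succ m ih =>
    rw [← ih, ← add_assoc, ← q_succ_div (k + m), Nat.div_div_eq_div_mul, pow_succ]
    congr 1
    ring

/-- The dyadic intervals. -/
def C (k a : ℕ) : Set ℝ := q k ⁻¹' {a}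

theorem mem_C {k a : ℕ} {t : ℝ} : t ∈ C k a ↔ q k t = a := Iff.rfl

theorem measurableSet_C (k a : ℕ) : MeasurableSet (C k a) :=
  measurable_q k (measurableSet_singleton a)

theorem C_inter {k a : ℕ} (h : a < 2 ^ k) :
    C k a ∩ Icc (0 : ℝ) 1 = Ico ((a : ℝ) / 2 ^ k) (((a : ℝ) + 1) / 2 ^ k) := by
  have h2 : (0 : ℝ) < 2 ^ k := by positivity
  have h3 : ((a : ℝ) + 1) / 2 ^ k ≤ 1 := by
    rw [div_le_one h2]
    exact_mod_cast h
  ext t
  simp only [mem_inter_iff, mem_C, mem_Icc, mem_Ico, q]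
  constructor
  · rintro ⟨h4, h5, h6⟩
    have h7 : 0 ≤ 2 ^ k * t := by positivity
    rw [Nat.floor_eq_iff h7] at h4
    constructor
    · rw [div_le_iff₀ h2]; linarith
    · rw [lt_div_iff₀ h2]; linarith
  · rintro ⟨h4, h5⟩
    have h0 : 0 ≤ t := le_trans (by positivity) h4
    refine ⟨?_, h0, (h5.trans_le h3).le⟩
    rw [div_le_iff₀ h2] at h4
    rw [lt_div_iff₀ h2] at h5
    rw [Nat.floor_eq_iff (by positivity)]
    constructor <;> linarith

theorem restrict_C {k a : ℕ} (h : a < 2 ^ k) :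
    mu.restrict (C k a) =
      volume.restrict (Ico ((a : ℝ) / 2 ^ k) (((a : ℝ) + 1) / 2 ^ k)) := by
  rw [Measure.restrict_restrict (measurableSet_C k a), C_inter h]

theorem mu_C {k a : ℕ} (h : a < 2 ^ k) : mu (C k a) = ENNReal.ofReal ((2 ^ k)⁻¹) := by
  rw [Measure.restrict_apply (measurableSet_C k a), C_inter h, Real.volume_Ico]
  congr 1
  ring

theorem real_mu_C {k a : ℕ} (h : a < 2 ^ k) : mu.real (C k a) = (2 ^ k)⁻¹ := by
  rw [Measure.real, mu_C h, ENNReal.toReal_ofReal (by positivity)]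

theorem ae_mem_Ico : ∀ᵐ t ∂mu, t ∈ Ico (0 : ℝ) 1 := by
  have h : mu = volume.restrict (Ico (0 : ℝ) 1) :=
    (Measure.restrict_congr_set Ico_ae_eq_Icc).symm
  rw [h]
  exact ae_restrict_mem measurableSet_Ico

theorem q_lt {k : ℕ} {t : ℝ} (ht : t ∈ Ico (0 : ℝ) 1) : q k t < 2 ^ k := by
  unfold q
  rw [Nat.floor_lt (mul_nonneg (by positivity) ht.1)]
  push_cast
  have h2 : (0 : ℝ) < 2 ^ k := by positivity
  nlinarith [ht.2]

theorem ae_q_lt (k : ℕ) : ∀ᵐ t ∂mu, q k t < 2 ^ k := by
  filter_upwards [ae_mem_Ico] with t ht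
  exact q_lt ht

theorem mu_C_ge {k a : ℕ} (h : 2 ^ k ≤ a) : mu (C k a) = 0 := by
  rw [← le_zero_iff]
  have h1 : mu {t | ¬ q k t < 2 ^ k} = 0 := ae_iff.mp (ae_q_lt k)
  rw [← h1]
  apply measure_mono
  intro t ht
  rw [mem_C] at ht
  simp only [mem_ofPred_eq, ht]
  omega

theorem mu_C_le (k a : ℕ) : mu (C k a) ≤ ENNReal.ofReal ((2 ^ k)⁻¹) := by
  rcases lt_or_ge a (2 ^ k) with h | h
  · exact (mu_C h).le
  · rw [mu_C_ge h]; exact bot_le

theorem real_mu_C_le (k a : ℕ) : mu.real (C k a) ≤ (2 ^ k)⁻¹ := by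
  rw [Measure.real]
  exact ENNReal.toReal_le_of_le_ofReal (by positivity) (mu_C_le k a)

/-- The law of the index. -/
theorem map_q (k : ℕ) : mu.map (q k) =
    ∑ a ∈ Finset.range (2 ^ k), ENNReal.ofReal ((2 ^ k)⁻¹) • Measure.dirac a := by
  apply Measure.ext_iff_singleton.mpr
  intro c
  rw [Measure.map_apply (measurable_q k) (measurableSet_singleton c)]
  change mu (C k c) = _
  rw [Measure.finsetSum_apply]
  simp only [Measure.smul_apply, smul_eq_mul, Measure.dirac_apply' _ (measurableSet_singleton c)]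
  rcases lt_or_ge c (2 ^ k) with h | h
  · rw [mu_C h, Finset.sum_eq_single c]
    · simp
    · intro b _ hb
      rw [indicator_of_notMem (by simpa using hb), mul_zero]
    · intro h'
      exact absurd (Finset.mem_range.mpr h) h'
  · rw [mu_C_ge h, Finset.sum_eq_zero]
    intro b hb
    have : b ≠ c := by
      rw [Finset.mem_range] at hb
      omega
    rw [indicator_of_notMem (by simpa using this), mul_zero]

section Averages

variable {E : Type*} [NormedAddCommGroup E] [NormedSpace ℝ E]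

theorem integral_comp_q [CompleteSpace E] (k : ℕ) (F : ℕ → E) :
    ∫ t, F (q k t) ∂mu = ((2 : ℝ) ^ k)⁻¹ • ∑ a ∈ Finset.range (2 ^ k), F a := by
  have h1 : ∫ t, F (q k t) ∂mu = ∫ a, F a ∂(mu.map (q k)) :=
    (integral_map (measurable_q k).aemeasurable
      (StronglyMeasurable.of_discrete).aestronglyMeasurable).symm
  rw [h1, map_q, integral_finsetSum_measure, Finset.smul_sum]
  · apply Finset.sum_congr rfl
    intro a _
    rw [integral_smul_measure, integral_dirac, ENNReal.toReal_ofReal (by positivity)]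
  · intro a _
    exact (integrable_dirac (by simp)).smul_measure ENNReal.ofReal_ne_top

/-- The averages over the dyadic intervals. -/
noncomputable def av (k : ℕ) (f : ℝ → E) (a : ℕ) : E := (2 : ℝ) ^ k • ∫ t in C k a, f t ∂mu

theorem av_congr {k : ℕ} {f g : ℝ → E} (h : f =ᵐ[mu] g) (a : ℕ) : av k f a = av k g a := by
  unfold av
  rw [integral_congr_ae (ae_restrict_of_ae h)]

theorem norm_av_le (k : ℕ) {f : ℝ → E} (a : ℕ) {M : ℝ} (hM : 0 ≤ M) (h : ∀ᵐ t ∂mu, ‖f t‖ ≤ M) :
    ‖av k f a‖ ≤ M := by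
  unfold av
  have h1 : ‖∫ t in C k a, f t ∂mu‖ ≤ M * mu.real (C k a) := by
    apply norm_setIntegral_le_of_norm_le_const_ae (measure_lt_top _ _)
    exact ae_restrict_of_ae h
  rw [norm_smul, norm_pow, Real.norm_eq_abs, abs_of_pos (by norm_num : (0 : ℝ) < 2)]
  have h2 : (0 : ℝ) < 2 ^ k := by positivity
  calc 2 ^ k * ‖∫ t in C k a, f t ∂mu‖ ≤ 2 ^ k * (M * mu.real (C k a)) :=
        mul_le_mul_of_nonneg_left h1 h2.le
    _ ≤ 2 ^ k * (M * (2 ^ k)⁻¹) := by
        apply mul_le_mul_of_nonneg_left _ h2.le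
        exact mul_le_mul_of_nonneg_left (real_mu_C_le k a) hM
    _ = M := by field_simp

theorem av_const (k : ℕ) {a : ℕ} (ha : a < 2 ^ k) [CompleteSpace E] (c : E) :
    av k (fun _ => c) a = c := by
  unfold av
  rw [setIntegral_const, real_mu_C ha, smul_smul, mul_inv_cancel₀ (by positivity), one_smul]

variable [CompleteSpace E]

/-- The dyadic differentiation theorem. -/
theorem ae_tendsto_av {f : ℝ → E} (hf : Integrable f mu) :
    ∀ᵐ t ∂mu, Tendsto (fun k => av k f (q k t)) atTop (𝓝 (f t)) := by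
  set g : ℝ → E := (Icc (0 : ℝ) 1).indicator f with hg
  have hgint : Integrable g volume := (integrable_indicator_iff measurableSet_Icc).mpr hf
  have h1 := IsUnifLocDoublingMeasure.ae_tendsto_average (μ := (volume : Measure ℝ))
    hgint.locallyIntegrable 1
  have h2 := ae_restrict_of_ae (s := Icc (0 : ℝ) 1) h1
  filter_upwards [h2, ae_mem_Ico] with x hx hx01
  have hδ : Tendsto (fun k : ℕ => (1 / 2 : ℝ) ^ (k + 1)) atTop (𝓝[>] 0) := by
    rw [tendsto_nhdsWithin_iff]
    constructor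
    · exact (tendsto_pow_atTop_nhds_zero_of_lt_one (by norm_num) (by norm_num)).comp
        (tendsto_add_atTop_nat 1)
    · exact Eventually.of_forall fun k => by simp
  have hball : ∀ k : ℕ, Metric.closedBall (((q k x : ℝ) + 1 / 2) / 2 ^ k) ((1 / 2 : ℝ) ^ (k + 1)) =
      Icc ((q k x : ℝ) / 2 ^ k) (((q k x : ℝ) + 1) / 2 ^ k) := by
    intro k
    rw [Real.closedBall_eq_Icc]
    have e : (1 / 2 : ℝ) ^ (k + 1) = 1 / 2 / 2 ^ k := by
      rw [pow_succ, one_div_pow]; ring
    rw [e]
    congr 1 <;> ring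
  have hxC : ∀ k : ℕ, x ∈ Ico ((q k x : ℝ) / 2 ^ k) (((q k x : ℝ) + 1) / 2 ^ k) := by
    intro k
    rw [← C_inter (q_lt hx01)]
    exact ⟨rfl, hx01.1, hx01.2.le⟩
  have h3 := hx (fun k : ℕ => ((q k x : ℝ) + 1 / 2) / 2 ^ k) (fun k : ℕ => (1 / 2 : ℝ) ^ (k + 1)) hδ
    (Eventually.of_forall fun k => by
      rw [one_mul, hball k]
      exact Ico_subset_Icc_self (hxC k))
  have hx01' : x ∈ Icc (0 : ℝ) 1 := ⟨hx01.1, hx01.2.le⟩
  have hgx : g x = f x := indicator_of_mem hx01' f
  rw [hgx] at h3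
  refine h3.congr fun k => ?_
  have hlt := q_lt (k := k) hx01
  rw [hball k, setAverage_eq, Measure.real, Real.volume_Icc, av]
  have e1 : (((q k x : ℝ) + 1) / 2 ^ k - (q k x : ℝ) / 2 ^ k) = (2 ^ k)⁻¹ := by ring
  rw [e1, ENNReal.toReal_ofReal (by positivity), inv_inv]
  congr 1
  have e2 : ∫ t in C k (q k x), f t ∂mu =
      ∫ t in Ico ((q k x : ℝ) / 2 ^ k) (((q k x : ℝ) + 1) / 2 ^ k), f t := by
    rw [restrict_C hlt]
  have e3 : ∫ t in Icc ((q k x : ℝ) / 2 ^ k) (((q k x : ℝ) + 1) / 2 ^ k), g t =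
      ∫ t in Icc ((q k x : ℝ) / 2 ^ k) (((q k x : ℝ) + 1) / 2 ^ k), f t := by
    apply setIntegral_congr_fun measurableSet_Icc
    intro t ht
    apply indicator_of_mem
    have h2k : (0 : ℝ) < 2 ^ k := by positivity
    refine ⟨le_trans (by positivity) ht.1, ht.2.trans ?_⟩
    rw [div_le_one h2k]
    exact_mod_cast hlt
  rw [e2, e3, integral_Icc_eq_integral_Ico]

/-- Integration over unions of dyadic intervals does not see the averaging. -/
theorem setIntegral_av_comp_q (n : ℕ) {f : ℝ → E} (hf : Integrable f mu) (s : Set ℕ) :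
    ∫ t in q n ⁻¹' s, av n f (q n t) ∂mu = ∫ t in q n ⁻¹' s, f t ∂mu := by
  have hs : MeasurableSet (q n ⁻¹' s) := measurable_q n (MeasurableSet.of_discrete)
  have h1 : ∫ t in q n ⁻¹' s, av n f (q n t) ∂mu =
      ∫ t, (s.indicator (fun a => av n f a)) (q n t) ∂mu := by
    rw [← integral_indicator hs]
    rfl
  rw [h1, integral_comp_q, Finset.smul_sum]
  have h2 : ∫ t in q n ⁻¹' s, f t ∂mu =
      ∑ a ∈ Finset.range (2 ^ n), ∫ t in C n a, (q n ⁻¹' s).indicator f t ∂mu := by
    rw [← integral_biUnion_finset]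
    · rw [← integral_indicator hs]
      symm
      apply setIntegral_eq_integral_of_ae_compl_eq_zero
      filter_upwards [ae_q_lt n] with t ht ht'
      exfalso
      apply ht'
      rw [mem_iUnion₂]
      exact ⟨q n t, Finset.mem_range.mpr ht, rfl⟩
    · intro a _; exact measurableSet_C n a
    · intro a _ b _ hab
      rw [Function.onFun, Set.disjoint_left]
      intro t ht ht'
      exact hab (ht.symm.trans ht')
    · intro a _
      exact (hf.indicator hs).integrableOn
  rw [h2]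
  apply Finset.sum_congr rfl
  intro a _
  by_cases ha : a ∈ s
  · rw [indicator_of_mem ha]
    have h3 : ∫ t in C n a, (q n ⁻¹' s).indicator f t ∂mu = ∫ t in C n a, f t ∂mu := by
      apply setIntegral_congr_fun (measurableSet_C n a)
      intro t ht
      apply indicator_of_mem
      rw [mem_C] at ht
      rw [mem_preimage, ht]; exact ha
    rw [h3, av, smul_smul, inv_mul_cancel₀ (by positivity), one_smul]
  · rw [indicator_of_notMem ha, smul_zero]
    symm
    apply setIntegral_eq_zero_of_forall_eq_zero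
    intro t ht
    apply indicator_of_notMem
    rw [mem_C] at ht
    rw [mem_preimage, ht]; exact ha

theorem C_eq_preimage (k m a : ℕ) : C k a = q (k + m) ⁻¹' {c | c / 2 ^ m = a} := by
  ext t
  rw [mem_C, mem_preimage, mem_ofPred_eq, q_add_div]

theorem av_av {k n : ℕ} (h : k ≤ n) {f : ℝ → E} (hf : Integrable f mu) (a : ℕ) :
    av k (fun t => av n f (q n t)) a = av k f a := by
  obtain ⟨m, rfl⟩ := Nat.exists_eq_add_of_le h
  unfold av
  rw [C_eq_preimage k m a]
  congr 1
  exact setIntegral_av_comp_q (k + m) hf _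

end Averages

end Q97.Dyad
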