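import Pool.Agent.Q97.Linf.Proj

set_option autoImplicit false
set_option linter.unusedSectionVars false

/-!
# The isomorphism
-/

namespace Q97.Dyad

open MeasureTheory Filter Topology Set
open scoped ENNReal

variable {𝕜 : Type*} [RCLike 𝕜] {r : ℝ≥0∞} [Fact (1 ≤ r)] [Fact (r ≠ ∞)]

/-! ## The `ℓ_∞`-sum is complemented in `L_∞(L_r)` -/

/-- A measurable function on the unit interval which takes every value on a set of positive
measure. -/
noncomputable def th (t : ℝ) : ℕ := ⌊1 / t⌋₊ - 1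

theorem measurable_th : Measurable th := by
  unfold th
  have h : Measurable fun t : ℝ => ⌊1 / t⌋₊ := by fun_prop
  exact (measurable_from_top (f := fun n : ℕ => n - 1)).comp h

/-- The level sets. -/
def D (j : ℕ) : Set ℝ := th ⁻¹' {j}

theorem measurableSet_D (j : ℕ) : MeasurableSet (D j) := measurable_th (measurableSet_singleton j)

theorem mu_D_pos (j : ℕ) : 0 < mu.real (D j) := by
  have h1 : Ioo (1 / ((j : ℝ) + 2)) (1 / ((j : ℝ) + 1)) ⊆ D j ∩ Icc 0 1 := by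
    intro t ht
    have h0 : 0 < t := lt_trans (by positivity) ht.1
    have hj : (0 : ℝ) < (j : ℝ) + 1 := by positivity
    have hj2 : (0 : ℝ) < (j : ℝ) + 2 := by positivity
    have a1 : (j : ℝ) + 1 < 1 / t := by
      rw [lt_div_iff₀ h0]
      have := ht.2
      rw [lt_div_iff₀ hj] at this
      linarith
    have a2 : 1 / t < (j : ℝ) + 2 := by
      rw [div_lt_iff₀ h0]
      have := ht.1
      rw [div_lt_iff₀ hj2] at this
      linarith
    refine ⟨?_, h0.le, ?_⟩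
    · rw [D, mem_preimage, mem_singleton_iff, th]
      have : ⌊1 / t⌋₊ = j + 1 := by
        rw [Nat.floor_eq_iff (by positivity)]
        push_cast
        constructor <;> linarith
      rw [this]
      rfl
    · refine ht.2.le.trans ?_
      rw [div_le_one hj]
      linarith [(Nat.cast_nonneg j : (0 : ℝ) ≤ j)]
  have h2 : 0 < mu (D j) := by
    rw [Measure.restrict_apply (measurableSet_D j)]
    refine lt_of_lt_of_le ?_ (measure_mono h1)
    rw [Real.volume_Ioo, ENNReal.ofReal_pos, sub_pos]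
    apply one_div_lt_one_div_of_lt (by positivity)
    linarith
  exact ENNReal.toReal_pos h2.ne' (measure_ne_top _ _)

/-- The functions that are constant on the level sets. -/
noncomputable def Jfun (x : WW 𝕜 r) (t : ℝ) : Lp 𝕜 r mu :=
  (fun p : ℕ × ℕ => T p.1 (x p)) (Nat.unpair (th t))

theorem norm_Jfun_le (x : WW 𝕜 r) (t : ℝ) : ‖Jfun x t‖ ≤ ‖x‖ := by
  rw [Jfun]
  simp only
  rw [LinearIsometry.norm_map]
  exact lp.norm_apply_le_norm (by simp) x _

theorem memLp_Jfun (x : WW 𝕜 r) : MemLp (Jfun x) ∞ mu := by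
  apply memLp_top_of_bound _ ‖x‖ (Eventually.of_forall (norm_Jfun_le x))
  have h : Jfun x = (fun j => (fun p : ℕ × ℕ => T p.1 (x p)) (Nat.unpair j)) ∘ th := rfl
  rw [h]
  exact ((StronglyMeasurable.of_discrete).comp_measurable measurable_th).aestronglyMeasurable

/-- The embedding. -/
noncomputable def J : WW 𝕜 r →L[𝕜] Lp (Lp 𝕜 r mu) ∞ mu :=
  LinearMap.mkContinuous
    { toFun := fun x => (memLp_Jfun x).toLp _
      map_add' := fun x y => by
        rw [← MemLp.toLp_add]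
        congr 1
        funext t
        simp only [Jfun, Pi.add_apply]
        rw [← map_add]
        rfl
      map_smul' := fun c x => by
        rw [RingHom.id_apply, ← MemLp.toLp_const_smul]
        congr 1
        funext t
        simp only [Jfun, Pi.smul_apply]
        rw [← map_smul]
        rfl } 1
    (fun x => by
      rw [one_mul]
      apply norm_top_le _ (norm_nonneg _)
      filter_upwards [(memLp_Jfun x).coeFn_toLp] with t h2
      change ‖((memLp_Jfun x).toLp (Jfun x)) t‖ ≤ ‖x‖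
      rw [h2]
      exact norm_Jfun_le x t)

theorem J_ae (x : WW 𝕜 r) : J x =ᵐ[mu] Jfun x := (memLp_Jfun x).coeFn_toLp

/-- The mean over a level set. -/
noncomputable def mn (j : ℕ) (f : ℝ → Lp 𝕜 r mu) : Lp 𝕜 r mu :=
  (mu.real (D j))⁻¹ • ∫ t in D j, f t ∂mu

theorem mn_congr {j : ℕ} {f g : ℝ → Lp 𝕜 r mu} (h : f =ᵐ[mu] g) : mn j f = mn j g := by
  unfold mn
  rw [integral_congr_ae (ae_restrict_of_ae h)]

theorem norm_mn_le (j : ℕ) {f : ℝ → Lp 𝕜 r mu} {c : ℝ} (h : ∀ᵐ t ∂mu, ‖f t‖ ≤ c) :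
    ‖mn j f‖ ≤ c := by
  unfold mn
  have h1 : ‖∫ t in D j, f t ∂mu‖ ≤ c * mu.real (D j) := by
    apply norm_setIntegral_le_of_norm_le_const_ae (measure_lt_top _ _)
    exact ae_restrict_of_ae h
  rw [norm_smul, norm_inv, Real.norm_eq_abs, abs_of_pos (mu_D_pos j)]
  rw [inv_mul_le_iff₀ (mu_D_pos j), mul_comm]
  exact h1

/-- The mean over a level set as an operator. -/
noncomputable def mnL (j : ℕ) : Lp (Lp 𝕜 r mu) ∞ mu →L[𝕜] Lp 𝕜 r mu :=
  LinearMap.mkContinuous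
    { toFun := fun f => mn j f
      map_add' := fun f g => by
        rw [mn_congr (Lp.coeFn_add f g), mn, mn, mn]
        have : ∫ t in D j, ((f : ℝ → Lp 𝕜 r mu) + g) t ∂mu =
            ∫ t in D j, f t ∂mu + ∫ t in D j, g t ∂mu :=
          integral_add (integrable_top f).integrableOn (integrable_top g).integrableOn
        rw [this, smul_add]
      map_smul' := fun c f => by
        rw [RingHom.id_apply, mn_congr (Lp.coeFn_smul c f), mn, mn]
        have : ∫ t in D j, (c • (f : ℝ → Lp 𝕜 r mu)) t ∂mu = c • ∫ t in D j, f t ∂mu :=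
          integral_smul c _
        rw [this, smul_comm] } 1
    (fun f => by
      rw [one_mul]
      exact norm_mn_le j (ae_norm_le f))

theorem mnL_apply (j : ℕ) (f : Lp (Lp 𝕜 r mu) ∞ mu) : mnL j f = mn j f := rfl

/-- The projection. -/
noncomputable def Qop : Lp (Lp 𝕜 r mu) ∞ mu →L[𝕜] WW 𝕜 r :=
  mkInf (fun p => (S p.1).comp (mnL (Nat.pair p.1 p.2))) 1 zero_le_one (fun p f => by
    rw [one_mul, ContinuousLinearMap.comp_apply]
    exact (norm_S_le _ _).trans (norm_mn_le _ (ae_norm_le f)))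

theorem Qop_apply (f : Lp (Lp 𝕜 r mu) ∞ mu) (p : ℕ × ℕ) :
    Qop f p = S p.1 (mn (Nat.pair p.1 p.2) f) := rfl

theorem mn_J (x : WW 𝕜 r) (p : ℕ × ℕ) : mn (Nat.pair p.1 p.2) (J x) = T p.1 (x p) := by
  rw [mn_congr (J_ae x), mn]
  have h1 : ∫ t in D (Nat.pair p.1 p.2), Jfun x t ∂mu =
      ∫ _ in D (Nat.pair p.1 p.2), T p.1 (x p) ∂mu := by
    apply setIntegral_congr_fun (measurableSet_D _)
    intro t ht
    have ht' : th t = Nat.pair p.1 p.2 := ht
    simp only [Jfun]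
    rw [ht', Nat.unpair_pair]
  rw [h1, setIntegral_const, smul_smul, inv_mul_cancel₀ (mu_D_pos _).ne', one_smul]

/-- The `ℓ_∞`-sum is complemented in `L_∞(L_r)`. -/
theorem compl_W_X : Compl 𝕜 (WW 𝕜 r) (Lp (Lp 𝕜 r mu) ∞ mu) := by
  refine ⟨J, Qop, fun x => ?_⟩
  apply lp.ext
  funext p
  rw [Qop_apply, mn_J, S_T]

/-! ## The `ℓ_∞`-sum is isomorphic to its `ℓ_∞`-power -/

/-- Coordinates of `WW`. -/
noncomputable def evW (p : ℕ × ℕ) (j : ℕ) : WW 𝕜 r →L[𝕜] lr 𝕜 r p.1 :=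
  evInf (F := fun p : ℕ × ℕ => lr 𝕜 r p.1) (p.1, j)

theorem evW_apply (p : ℕ × ℕ) (j : ℕ) (x : WW 𝕜 r) : evW p j x = x (p.1, j) := rfl

theorem norm_evW_le (p : ℕ × ℕ) (j : ℕ) (x : WW 𝕜 r) : ‖evW p j x‖ ≤ ‖x‖ :=
  norm_evInf_le (F := fun p : ℕ × ℕ => lr 𝕜 r p.1) (p.1, j) x

/-- Coordinates of the power. -/
noncomputable def evP (m : ℕ) : lp (fun _ : ℕ => WW 𝕜 r) ∞ →L[𝕜] WW 𝕜 r :=
  evInf (F := fun _ : ℕ => WW 𝕜 r) m

theorem evP_apply (m : ℕ) (x : lp (fun _ : ℕ => WW 𝕜 r) ∞) : evP m x = x m := rfl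

theorem norm_evP_le (m : ℕ) (x : lp (fun _ : ℕ => WW 𝕜 r) ∞) : ‖evP m x‖ ≤ ‖x‖ :=
  norm_evInf_le (F := fun _ : ℕ => WW 𝕜 r) m x

/-- Joining. -/
noncomputable def join : lp (fun _ : ℕ => WW 𝕜 r) ∞ →L[𝕜] WW 𝕜 r :=
  mkInf (F := fun p : ℕ × ℕ => lr 𝕜 r p.1)
    (fun p => (evW p (Nat.unpair p.2).2).comp (evP (Nat.unpair p.2).1)) 1
    zero_le_one (fun p x => by
      rw [one_mul]
      exact (norm_evW_le _ _ _).trans (norm_evP_le _ x))

/-- One coordinate of splitting. -/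
noncomputable def split1 (m : ℕ) : WW 𝕜 r →L[𝕜] WW 𝕜 r :=
  mkInf (F := fun p : ℕ × ℕ => lr 𝕜 r p.1) (fun p => evW p (Nat.pair m p.2)) 1 zero_le_one
    (fun p x => by
      rw [one_mul]
      exact norm_evW_le _ _ x)

/-- Splitting. -/
noncomputable def split : WW 𝕜 r →L[𝕜] lp (fun _ : ℕ => WW 𝕜 r) ∞ :=
  mkInf (F := fun _ : ℕ => WW 𝕜 r) (fun m => split1 m) 1 zero_le_one (fun m x => by
    rw [one_mul]
    apply lp.norm_le_of_forall_le (norm_nonneg _)
    intro p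
    exact norm_evW_le _ _ x)

theorem join_apply (x : lp (fun _ : ℕ => WW 𝕜 r) ∞) (p : ℕ × ℕ) :
    join x p = x (Nat.unpair p.2).1 (p.1, (Nat.unpair p.2).2) := rfl

theorem split_apply (x : WW 𝕜 r) (m : ℕ) (p : ℕ × ℕ) :
    split x m p = x (p.1, Nat.pair m p.2) := rfl

theorem WW_power : Nonempty (lp (fun _ : ℕ => WW 𝕜 r) ∞ ≃L[𝕜] WW 𝕜 r) := by
  refine ⟨ContinuousLinearEquiv.equivOfInverse join split ?_ ?_⟩
  · intro x
    apply lp.ext
    funext m
    apply lp.ext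
    funext p
    rw [split_apply, join_apply]
    exact congrArg (fun u : ℕ × ℕ => (show lr 𝕜 r p.1 from x u.1 (p.1, u.2)))
      (Nat.unpair_pair m p.2)
  · intro x
    apply lp.ext
    funext p
    rw [join_apply, split_apply]
    exact congrArg (fun j : ℕ => (show lr 𝕜 r p.1 from x (p.1, j))) (Nat.pair_unpair p.2)

/-! ## Sums of finite-dimensional spaces -/

/-- Extension of a finite sequence by zero. -/
noncomputable def ext1 {d : ℕ} (x : PiLp r (fun _ : Fin d => 𝕜)) (a : ℕ) : 𝕜 :=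
  if h : a < d then x ⟨a, h⟩ else 0

theorem norm_rpow_ext1 {d : ℕ} (x : PiLp r (fun _ : Fin d => 𝕜)) :
    ‖x‖ ^ r.toReal = ∑ a ∈ Finset.range d, ‖ext1 x a‖ ^ r.toReal := by
  rw [PiLp.norm_eq_sum rho_pos, ← Real.rpow_mul (by positivity),
    one_div_mul_cancel (rho_pos (r := r)).ne', Real.rpow_one, Finset.sum_range]
  apply Finset.sum_congr rfl
  intro i _
  rw [ext1, dif_pos i.2]

/-- Truncation or extension by zero. -/
noncomputable def embFun {a : ℕ} (b : ℕ) (x : PiLp r (fun _ : Fin a => 𝕜)) :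
    PiLp r (fun _ : Fin b => 𝕜) := WithLp.toLp r fun i : Fin b => ext1 x i

theorem ext1_embFun {a : ℕ} (b : ℕ) (x : PiLp r (fun _ : Fin a => 𝕜)) (c : ℕ) :
    ext1 (embFun b x) c = if c < b then ext1 x c else 0 := by
  by_cases h : c < b
  · rw [ext1, dif_pos h, if_pos h]
    rfl
  · rw [ext1, dif_neg h, if_neg h]

theorem norm_embFun_le {a : ℕ} (b : ℕ) (x : PiLp r (fun _ : Fin a => 𝕜)) :
    ‖embFun b x‖ ≤ ‖x‖ := by
  rw [← Real.rpow_le_rpow_iff (norm_nonneg _) (norm_nonneg _) (rho_pos (r := r)), norm_rpow_ext1,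
    norm_rpow_ext1]
  have h1 : ∀ c ∈ Finset.range b, ‖ext1 (embFun b x) c‖ ^ r.toReal = ‖ext1 x c‖ ^ r.toReal := by
    intro c hc
    rw [ext1_embFun, if_pos (Finset.mem_range.mp hc)]
  rw [Finset.sum_congr rfl h1]
  have h2 : ∀ c, a ≤ c → ‖ext1 x c‖ ^ r.toReal = 0 := by
    intro c hc
    rw [ext1, dif_neg (by omega), norm_zero, Real.zero_rpow (rho_pos (r := r)).ne']
  rcases le_total b a with h | h
  · apply Finset.sum_le_sum_of_subset_of_nonneg
    · exact Finset.range_mono h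
    · intro c _ _
      positivity
  · apply le_of_eq
    symm
    apply Finset.sum_subset (Finset.range_mono h)
    intro c _ hc
    exact h2 c (by simpa using hc)

theorem ext1_inj {d : ℕ} {x y : PiLp r (fun _ : Fin d => 𝕜)} (h : ∀ c, c < d → ext1 x c = ext1 y c) :
    x = y := by
  ext i
  have h1 := h i i.2
  rw [ext1, ext1, dif_pos i.2, dif_pos i.2] at h1
  exact h1

/-- Truncation or extension by zero, as an operator. -/
noncomputable def emb (a b : ℕ) : PiLp r (fun _ : Fin a => 𝕜) →L[𝕜] PiLp r (fun _ : Fin b => 𝕜) :=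
  LinearMap.mkContinuous
    { toFun := embFun b
      map_add' := fun x y => by
        ext i
        simp only [embFun, PiLp.add_apply, ext1]
        split_ifs
        · rfl
        · simp
      map_smul' := fun c x => by
        ext i
        simp only [embFun, PiLp.smul_apply, ext1]
        split_ifs
        · rfl
        · simp } 1
    (fun x => by rw [one_mul]; exact norm_embFun_le b x)

theorem emb_apply (a b : ℕ) (x : PiLp r (fun _ : Fin a => 𝕜)) : emb a b x = embFun b x := rfl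

theorem compl_sums {I I' : Type*} (d : I → ℕ) (d' : I' → ℕ) (σ : I → I') (p : I' → I)
    (hp : ∀ i, p (σ i) = i) (hd : ∀ i, d i ≤ d' (σ i)) :
    Compl 𝕜 (lp (fun i : I => PiLp r (fun _ : Fin (d i) => 𝕜)) ∞)
      (lp (fun i : I' => PiLp r (fun _ : Fin (d' i) => 𝕜)) ∞) := by
  let f : lp (fun i : I => PiLp r (fun _ : Fin (d i) => 𝕜)) ∞ →L[𝕜]
      lp (fun i : I' => PiLp r (fun _ : Fin (d' i) => 𝕜)) ∞ :=
    mkInf (fun j => (emb (d (p j)) (d' j)).comp (evInf (p j))) 1 zero_le_one (fun j x => by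
      rw [one_mul]
      exact (norm_embFun_le _ _).trans
        (norm_evInf_le (F := fun i : I => PiLp r (fun _ : Fin (d i) => 𝕜)) _ x))
  let g : lp (fun i : I' => PiLp r (fun _ : Fin (d' i) => 𝕜)) ∞ →L[𝕜]
      lp (fun i : I => PiLp r (fun _ : Fin (d i) => 𝕜)) ∞ :=
    mkInf (fun i => (emb (d' (σ i)) (d i)).comp (evInf (σ i))) 1 zero_le_one (fun i x => by
      rw [one_mul]
      exact (norm_embFun_le _ _).trans
        (norm_evInf_le (F := fun i : I' => PiLp r (fun _ : Fin (d' i) => 𝕜)) _ x))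
  have hf : ∀ x j, f x j = embFun (d' j) (x (p j)) := fun x j => rfl
  have hg : ∀ x i, g x i = embFun (d i) (x (σ i)) := fun x i => rfl
  refine ⟨f, g, fun x => ?_⟩
  apply lp.ext
  funext i
  apply ext1_inj
  intro c hc
  rw [hg, hf, ext1_embFun, if_pos hc, ext1_embFun, if_pos (lt_of_lt_of_le hc (hd i))]
  exact congrArg (fun j => ext1 (x j) c) (hp i)

/-- The space `B_{r,∞}`. -/
abbrev BB (𝕜 : Type*) [RCLike 𝕜] (r : ℝ≥0∞) [Fact (1 ≤ r)] : Type _ :=
  lp (fun n : ℕ => PiLp r (fun _ : Fin (n + 1) => 𝕜)) ∞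

theorem compl_B_W : Compl 𝕜 (BB 𝕜 r) (WW 𝕜 r) :=
  compl_sums (fun n : ℕ => n + 1) (fun p : ℕ × ℕ => 2 ^ p.1) (fun n => (n, 0)) (fun p => p.1)
    (fun _ => rfl) (fun _ => Nat.lt_two_pow_self)

theorem compl_W_B : Compl 𝕜 (WW 𝕜 r) (BB 𝕜 r) :=
  compl_sums (fun p : ℕ × ℕ => 2 ^ p.1) (fun n : ℕ => n + 1) (fun p => Nat.pair (2 ^ p.1) p.2)
    (fun N => (Nat.log 2 (Nat.unpair N).1, (Nat.unpair N).2))
    (fun p => by
      rw [Nat.unpair_pair]
      simp only [Nat.log_pow (by norm_num : 1 < 2)])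
    (fun p => (Nat.left_le_pair _ _).trans (Nat.le_succ _))

/-- The isomorphism theorem. -/
theorem main (𝕜 : Type*) [RCLike 𝕜] (r : ℝ≥0∞) [Fact (1 ≤ r)] (hr : r ≠ ∞) :
    Nonempty (Lp (Lp 𝕜 r mu) ∞ mu ≃L[𝕜] BB 𝕜 r) := by
  have _ : Fact (r ≠ ∞) := ⟨hr⟩
  obtain ⟨e1⟩ := decomposition (𝕜 := 𝕜) (compl_X_W (𝕜 := 𝕜) (r := r)) compl_W_X WW_power
  obtain ⟨e2⟩ := decomposition (𝕜 := 𝕜) (compl_B_W (𝕜 := 𝕜) (r := r)) compl_W_B WW_power
  exact ⟨e1.trans e2.symm⟩

end Q97.Dyad
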