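import Pool.Agent.Q97.Linf.Dyad

set_option autoImplicit false
set_option linter.unusedSectionVars false

/-!
# Dyadic martingales on the unit square
-/

namespace Q97.Dyad

open MeasureTheory Filter Topology Set
open scoped ENNReal

/-- Lebesgue measure on the unit square. -/
noncomputable abbrev mu2 : Measure (ℝ × ℝ) := mu.prod mu

/-- The indices of the dyadic square containing a point. -/
noncomputable def Q (k : ℕ) (z : ℝ × ℝ) : ℕ × ℕ := (q k z.1, q k z.2)

theorem measurable_Q (k : ℕ) : Measurable (Q k) :=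
  ((measurable_q k).comp measurable_fst).prodMk ((measurable_q k).comp measurable_snd)

theorem Q_succ_div (k : ℕ) (z : ℝ × ℝ) :
    ((Q (k + 1) z).1 / 2, (Q (k + 1) z).2 / 2) = Q k z := by
  unfold Q
  rw [q_succ_div, q_succ_div]

theorem ae_Q_lt (k : ℕ) : ∀ᵐ z ∂mu2, (Q k z).1 < 2 ^ k ∧ (Q k z).2 < 2 ^ k := by
  have h1 : ∀ᵐ z ∂mu2, q k z.1 < 2 ^ k := Measure.quasiMeasurePreserving_fst.ae (ae_q_lt k)
  have h2 : ∀ᵐ z ∂mu2, q k z.2 < 2 ^ k := Measure.quasiMeasurePreserving_snd.ae (ae_q_lt k)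
  filter_upwards [h1, h2] with z h3 h4
  exact ⟨h3, h4⟩

section General

variable {E : Type*} [NormedAddCommGroup E] [NormedSpace ℝ E] [CompleteSpace E]

theorem stronglyMeasurable_comp_Q (k : ℕ) (F : ℕ × ℕ → E) :
    StronglyMeasurable fun z => F (Q k z) :=
  (StronglyMeasurable.of_discrete).comp_measurable (measurable_Q k)

theorem integrable_comp_Q (k : ℕ) (F : ℕ × ℕ → E) : Integrable (fun z => F (Q k z)) mu2 := by
  apply Integrable.of_bound (stronglyMeasurable_comp_Q k F).aestronglyMeasurable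
    (∑ a ∈ Finset.range (2 ^ k), ∑ b ∈ Finset.range (2 ^ k), ‖F (a, b)‖)
  filter_upwards [ae_Q_lt k] with z hz
  have h1 : ‖F (Q k z)‖ ≤ ∑ b ∈ Finset.range (2 ^ k), ‖F ((Q k z).1, b)‖ :=
    Finset.single_le_sum (f := fun b => ‖F ((Q k z).1, b)‖) (fun b _ => norm_nonneg _)
      (Finset.mem_range.mpr hz.2)
  refine h1.trans ?_
  exact Finset.single_le_sum (f := fun a => ∑ b ∈ Finset.range (2 ^ k), ‖F (a, b)‖)
    (fun a _ => Finset.sum_nonneg fun b _ => norm_nonneg _) (Finset.mem_range.mpr hz.1)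

theorem integral_comp_Q (k : ℕ) (F : ℕ × ℕ → E) :
    ∫ z, F (Q k z) ∂mu2 = ((2 : ℝ) ^ k)⁻¹ • ((2 : ℝ) ^ k)⁻¹ •
      ∑ a ∈ Finset.range (2 ^ k), ∑ b ∈ Finset.range (2 ^ k), F (a, b) := by
  rw [integral_prod _ (integrable_comp_Q k F)]
  have h1 : ∀ t : ℝ, ∫ s, F (Q k (t, s)) ∂mu =
      (fun a => ((2 : ℝ) ^ k)⁻¹ • ∑ b ∈ Finset.range (2 ^ k), F (a, b)) (q k t) := by
    intro t
    exact integral_comp_q k (fun b => F (q k t, b))
  simp_rw [h1]
  rw [integral_comp_q k (fun a => ((2 : ℝ) ^ k)⁻¹ • ∑ b ∈ Finset.range (2 ^ k), F (a, b)),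
    ← Finset.smul_sum]

theorem sum_range_two_mul (N : ℕ) (g : ℕ → E) :
    ∑ a ∈ Finset.range (2 * N), g a = ∑ a ∈ Finset.range N, (g (2 * a) + g (2 * a + 1)) := by
  induction N with
  | zero => simp
  | succ N ih =>
    rw [Finset.sum_range_succ, ← ih, Nat.mul_succ, Finset.sum_range_succ, Finset.sum_range_succ,
      add_assoc]

end General

/-- The dyadic filtration of the square. -/
noncomputable def Fil : Filtration ℕ (inferInstance : MeasurableSpace (ℝ × ℝ)) where
  seq k := MeasurableSpace.comap (Q k) inferInstance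
  mono' := by
    apply monotone_nat_of_le_succ
    intro k
    have h : Q k = (fun p : ℕ × ℕ => (p.1 / 2, p.2 / 2)) ∘ Q (k + 1) := by
      funext z
      exact (Q_succ_div k z).symm
    rw [h, ← MeasurableSpace.comap_comp]
    exact MeasurableSpace.comap_mono (Measurable.comap_le (Measurable.of_discrete))
  le' k := (measurable_Q k).comap_le

/-- Consistency of a family of numbers attached to the dyadic squares. -/
def Consistent (m : ℕ → ℕ → ℕ → ℝ) : Prop :=
  ∀ k a b, a < 2 ^ k → b < 2 ^ k → m k a b = 1 / 4 * (m (k + 1) (2 * a) (2 * b) +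
    m (k + 1) (2 * a) (2 * b + 1) + m (k + 1) (2 * a + 1) (2 * b) +
    m (k + 1) (2 * a + 1) (2 * b + 1))

/-- The step functions. -/
noncomputable def Mt (m : ℕ → ℕ → ℕ → ℝ) (k : ℕ) (z : ℝ × ℝ) : ℝ := m k (Q k z).1 (Q k z).2

theorem martingale_Mt {m : ℕ → ℕ → ℕ → ℝ} (hm : Consistent m) : Martingale (Mt m) Fil mu2 := by
  apply martingale_of_setIntegral_eq_succ
  · intro k
    have h : Mt m k = (fun p : ℕ × ℕ => m k p.1 p.2) ∘ Q k := rfl
    rw [h]
    exact (StronglyMeasurable.of_discrete).comp_measurable (comap_measurable _)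
  · intro k
    exact integrable_comp_Q k (fun p : ℕ × ℕ => m k p.1 p.2)
  · intro k s hs
    obtain ⟨B, -, rfl⟩ := hs
    have hB : MeasurableSet (Q k ⁻¹' B) := measurable_Q k (MeasurableSet.of_discrete)
    rw [← integral_indicator hB, ← integral_indicator hB]
    have h1 : (Q k ⁻¹' B).indicator (Mt m k) =
        fun z => (fun p : ℕ × ℕ => B.indicator (fun p => m k p.1 p.2) p) (Q k z) := by
      funext z
      rfl
    have h2 : (Q k ⁻¹' B).indicator (Mt m (k + 1)) =
        fun z => (fun p : ℕ × ℕ => B.indicator (fun _ => m (k + 1) p.1 p.2) (p.1 / 2, p.2 / 2))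
          (Q (k + 1) z) := by
      funext z
      by_cases hz : Q k z ∈ B
      · rw [indicator_of_mem (show z ∈ Q k ⁻¹' B from hz)]
        simp only
        rw [Q_succ_div, indicator_of_mem hz]
        rfl
      · rw [indicator_of_notMem (show z ∉ Q k ⁻¹' B from hz)]
        simp only
        rw [Q_succ_div, indicator_of_notMem hz]
    have e0 : (2 : ℕ) ^ (k + 1) = 2 * 2 ^ k := pow_succ' 2 k
    rw [h1, h2, integral_comp_Q, integral_comp_Q, e0, sum_range_two_mul]
    have h3 : ∀ a, ∑ b ∈ Finset.range (2 * 2 ^ k),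
        B.indicator (fun _ => m (k + 1) (a, b).1 (a, b).2) ((a, b).1 / 2, (a, b).2 / 2) =
        ∑ b ∈ Finset.range (2 ^ k), (B.indicator (fun _ => m (k + 1) a (2 * b)) (a / 2, b) +
          B.indicator (fun _ => m (k + 1) a (2 * b + 1)) (a / 2, b)) := by
      intro a
      rw [sum_range_two_mul]
      apply Finset.sum_congr rfl
      intro b _
      have e1 : 2 * b / 2 = b := by omega
      have e2 : (2 * b + 1) / 2 = b := by omega
      simp only [e1, e2]
    have h4 : ∀ a, (∑ b ∈ Finset.range (2 * 2 ^ k),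
        B.indicator (fun _ => m (k + 1) (2 * a, b).1 (2 * a, b).2)
          ((2 * a, b).1 / 2, (2 * a, b).2 / 2)) +
        (∑ b ∈ Finset.range (2 * 2 ^ k),
        B.indicator (fun _ => m (k + 1) (2 * a + 1, b).1 (2 * a + 1, b).2)
          ((2 * a + 1, b).1 / 2, (2 * a + 1, b).2 / 2)) =
        ∑ b ∈ Finset.range (2 ^ k), B.indicator (fun _ => m (k + 1) (2 * a) (2 * b) +
          m (k + 1) (2 * a) (2 * b + 1) + m (k + 1) (2 * a + 1) (2 * b) +
          m (k + 1) (2 * a + 1) (2 * b + 1)) (a, b) := by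
      intro a
      rw [h3, h3, ← Finset.sum_add_distrib]
      apply Finset.sum_congr rfl
      intro b _
      have e1 : 2 * a / 2 = a := by omega
      have e2 : (2 * a + 1) / 2 = a := by omega
      rw [e1, e2]
      by_cases hz : (a, b) ∈ B
      · simp only [indicator_of_mem hz]; ring
      · simp only [indicator_of_notMem hz]; ring
    have h5 : ∀ a ∈ Finset.range (2 ^ k), ∀ b ∈ Finset.range (2 ^ k),
        B.indicator (fun _ => m (k + 1) (2 * a) (2 * b) +
          m (k + 1) (2 * a) (2 * b + 1) + m (k + 1) (2 * a + 1) (2 * b) +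
          m (k + 1) (2 * a + 1) (2 * b + 1)) (a, b) =
        4 * B.indicator (fun p => m k p.1 p.2) (a, b) := by
      intro a ha b hb
      rw [Finset.mem_range] at ha hb
      by_cases hz : (a, b) ∈ B
      · rw [indicator_of_mem hz, indicator_of_mem hz]
        simp only
        rw [hm k a b ha hb]; ring
      · rw [indicator_of_notMem hz, indicator_of_notMem hz, mul_zero]
    rw [Finset.sum_congr rfl fun a _ => h4 a,
      Finset.sum_congr rfl fun a ha => Finset.sum_congr rfl fun b hb => h5 a ha b hb]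
    simp only [← Finset.mul_sum, smul_eq_mul]
    have h6 : (2 : ℝ) ^ k ≠ 0 := by positivity
    rw [pow_succ]
    field_simp
    ring

/-- Almost everywhere convergence of the step functions. -/
theorem ae_tendsto_Mt {m : ℕ → ℕ → ℕ → ℝ} (hm : Consistent m) {R : ℝ}
    (hR : ∀ k a, a < 2 ^ k → ((2 : ℝ) ^ k)⁻¹ * ∑ b ∈ Finset.range (2 ^ k), |m k a b| ≤ R) :
    ∀ᵐ z ∂mu2, ∃ c, Tendsto (fun k => Mt m k z) atTop (𝓝 c) := by
  have hR0 : 0 ≤ R := by
    refine le_trans ?_ (hR 0 0 (by norm_num))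
    positivity
  have hbdd : ∀ k, eLpNorm (Mt m k) 1 mu2 ≤ (R.toNNReal : ℝ≥0∞) := by
    intro k
    have h1 : Integrable (Mt m k) mu2 := integrable_comp_Q k (fun p : ℕ × ℕ => m k p.1 p.2)
    rw [eLpNorm_one_eq_lintegral_enorm, ← ofReal_integral_norm_eq_lintegral_enorm h1]
    change ENNReal.ofReal _ ≤ ENNReal.ofReal R
    apply ENNReal.ofReal_le_ofReal
    have h2 : ∫ z, ‖Mt m k z‖ ∂mu2 = ∫ z, (fun p : ℕ × ℕ => |m k p.1 p.2|) (Q k z) ∂mu2 := rfl
    rw [h2, integral_comp_Q k (fun p : ℕ × ℕ => |m k p.1 p.2|), smul_eq_mul, smul_eq_mul,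
      Finset.mul_sum]
    have h3 : ∑ a ∈ Finset.range (2 ^ k), ((2 : ℝ) ^ k)⁻¹ * ∑ b ∈ Finset.range (2 ^ k),
        |m k a b| ≤ ∑ a ∈ Finset.range (2 ^ k), R :=
      Finset.sum_le_sum fun a ha => hR k a (Finset.mem_range.mp ha)
    rw [Finset.sum_const, Finset.card_range, nsmul_eq_mul] at h3
    push_cast at h3
    have h4 : (0 : ℝ) < 2 ^ k := by positivity
    calc ((2 : ℝ) ^ k)⁻¹ * ∑ a ∈ Finset.range (2 ^ k), ((2 : ℝ) ^ k)⁻¹ *
          ∑ b ∈ Finset.range (2 ^ k), |m k (a, b).1 (a, b).2| ≤ ((2 : ℝ) ^ k)⁻¹ * (2 ^ k * R) :=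
          mul_le_mul_of_nonneg_left h3 (by positivity)
      _ = R := by field_simp
  filter_upwards [(martingale_Mt hm).submartingale.ae_tendsto_limitProcess hbdd] with z hz
  exact ⟨_, hz⟩

end Q97.Dyad
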