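import Pool.Agent.Q97.Linf.ST
import Pool.Agent.Q97.Linf.Mart

set_option autoImplicit false
set_option linter.unusedSectionVars false

/-!
# The limit functions
-/

namespace Q97.Dyad

open MeasureTheory Filter Topology Set
open scoped ENNReal

theorem av_succ {E : Type*} [NormedAddCommGroup E] [NormedSpace ℝ E] {f : ℝ → E}
    (hf : Integrable f mu) (k a : ℕ) :
    av k f a = (1 / 2 : ℝ) • (av (k + 1) f (2 * a) + av (k + 1) f (2 * a + 1)) := by
  have h1 : C k a = C (k + 1) (2 * a) ∪ C (k + 1) (2 * a + 1) := by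
    ext t
    rw [mem_union, mem_C, mem_C, mem_C, ← q_succ_div]
    omega
  have h2 : Disjoint (C (k + 1) (2 * a)) (C (k + 1) (2 * a + 1)) := by
    rw [Set.disjoint_left]
    intro t ht ht'
    rw [mem_C] at ht ht'
    omega
  unfold av
  rw [h1, setIntegral_union h2 (measurableSet_C _ _) hf.integrableOn hf.integrableOn, ← smul_add,
    smul_smul]
  congr 1
  rw [pow_succ]
  ring

variable {𝕜 : Type*} [RCLike 𝕜] {r : ℝ≥0∞} [Fact (1 ≤ r)] [Fact (r ≠ ∞)]

section Ext0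

variable {k : ℕ}

theorem ext0_add (x y : lr 𝕜 r k) (a : ℕ) : ext0 (x + y) a = ext0 x a + ext0 y a := by
  unfold ext0
  split_ifs
  · rfl
  · simp

theorem ext0_smul (c : 𝕜) (x : lr 𝕜 r k) (a : ℕ) : ext0 (c • x) a = c • ext0 x a := by
  unfold ext0
  split_ifs
  · rfl
  · simp

theorem ext0_real_smul (c : ℝ) (x : lr 𝕜 r k) (a : ℕ) : ext0 (c • x) a = c • ext0 x a := by
  unfold ext0
  split_ifs
  · rfl
  · simp

theorem continuous_ext0 (a : ℕ) : Continuous (fun x : lr 𝕜 r k => ext0 x a) := by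
  unfold ext0
  split_ifs with h
  · exact (continuous_apply (⟨a, h⟩ : Fin (2 ^ k))).comp (PiLp.continuous_ofLp r _)
  · exact continuous_const

theorem ext0_ext {x y : lr 𝕜 r k} (h : ∀ a, a < 2 ^ k → ext0 x a = ext0 y a) : x = y := by
  ext i
  have h1 := h i i.2
  rw [ext0, ext0, dif_pos i.2, dif_pos i.2] at h1
  exact h1

end Ext0

theorem S_real_smul (k : ℕ) (c : ℝ) (g : Lp 𝕜 r mu) : S k (c • g) = c • S k g :=
  map_real_smul (S k) (S k).continuous c g

/-- The values of the step function of order `k`. -/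
noncomputable def cf (k : ℕ) (g : Lp 𝕜 r mu) (b : ℕ) : 𝕜 := sc r k • ext0 (S k g) b

theorem cf_eq_av (k : ℕ) (g : Lp 𝕜 r mu) {b : ℕ} (hb : b < 2 ^ k) : cf k g b = av k g b := by
  rw [cf, ext0, dif_pos hb, S_apply, smul_smul, mul_inv_cancel₀ (sc_pos r k).ne', one_smul]

theorem cf_add (k : ℕ) (f g : Lp 𝕜 r mu) (b : ℕ) : cf k (f + g) b = cf k f b + cf k g b := by
  rw [cf, cf, cf, map_add, ext0_add, smul_add]

theorem cf_real_smul (k : ℕ) (c : ℝ) (g : Lp 𝕜 r mu) (b : ℕ) :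
    cf k (c • g) b = c • cf k g b := by
  rw [cf, cf, S_real_smul, ext0_real_smul, smul_comm]

theorem cf_succ (k : ℕ) (g : Lp 𝕜 r mu) {b : ℕ} (hb : b < 2 ^ k) :
    cf k g b = (1 / 2 : ℝ) • (cf (k + 1) g (2 * b) + cf (k + 1) g (2 * b + 1)) := by
  have h1 : 2 * b < 2 ^ (k + 1) := by rw [pow_succ]; omega
  have h2 : 2 * b + 1 < 2 ^ (k + 1) := by rw [pow_succ]; omega
  rw [cf_eq_av k g hb, cf_eq_av (k + 1) g h1, cf_eq_av (k + 1) g h2,
    av_succ (Lp_integrable g)]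

/-- The `ℓ_∞`-sum of all `ℓ_r^{2^n}`, each repeated infinitely often. -/
abbrev WW (𝕜 : Type*) [RCLike 𝕜] (r : ℝ≥0∞) [Fact (1 ≤ r)] : Type _ :=
  lp (fun p : ℕ × ℕ => lr 𝕜 r p.1) ∞

/-- The step functions defined by an element of `WW`. -/
noncomputable def G (w : WW 𝕜 r) (n : ℕ) (t : ℝ) : Lp 𝕜 r mu := T n (w (n, q n t))

theorem norm_G_le (w : WW 𝕜 r) (n : ℕ) (t : ℝ) : ‖G w n t‖ ≤ ‖w‖ := by
  rw [G, LinearIsometry.norm_map]
  exact lp.norm_apply_le_norm (by simp) w (n, q n t)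

theorem stronglyMeasurable_G (w : WW 𝕜 r) (n : ℕ) : StronglyMeasurable (G w n) := by
  have h : G w n = (fun j => T n (w (n, j))) ∘ q n := rfl
  rw [h]
  exact (StronglyMeasurable.of_discrete).comp_measurable (measurable_q n)

theorem integrable_G (w : WW 𝕜 r) (n : ℕ) : Integrable (G w n) mu :=
  Integrable.of_bound (stronglyMeasurable_G w n).aestronglyMeasurable ‖w‖
    (Eventually.of_forall (norm_G_le w n))

/-- The approximations of the coordinates. -/
noncomputable def Vn (w : WW 𝕜 r) (n k a : ℕ) : lr 𝕜 r k := S k (av k (G w n) a)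

theorem norm_Vn_le (w : WW 𝕜 r) (n k a : ℕ) : ‖Vn w n k a‖ ≤ ‖w‖ :=
  (norm_S_le k _).trans (norm_av_le k a (norm_nonneg _) (Eventually.of_forall (norm_G_le w n)))

theorem av_G_add (w w' : WW 𝕜 r) (n k a : ℕ) :
    av k (G (w + w') n) a = av k (G w n) a + av k (G w' n) a := by
  rw [← av_add k a (integrable_G w n) (integrable_G w' n)]
  congr 1
  funext t
  rw [G, G, G, ← map_add]
  rfl

theorem av_G_smul (c : 𝕜) (w : WW 𝕜 r) (n k a : ℕ) :
    av k (G (c • w) n) a = c • av k (G w n) a := by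
  have h : G (c • w) n = fun t => c • G w n t := by
    funext t
    rw [G, G, ← map_smul]
    rfl
  rw [h, av, av, integral_smul, smul_comm]

/-- The limiting coordinates. -/
noncomputable def V (w : WW 𝕜 r) (k a : ℕ) : lr 𝕜 r k :=
  limUnder (hyperfilter ℕ : Filter ℕ) (fun n => Vn w n k a)

theorem exists_limit (w : WW 𝕜 r) (k a : ℕ) :
    ∃ x ∈ Metric.closedBall (0 : lr 𝕜 r k) ‖w‖,
      Tendsto (fun n => Vn w n k a) (hyperfilter ℕ : Filter ℕ) (𝓝 x) := by
  have h := (isCompact_closedBall (0 : lr 𝕜 r k) ‖w‖).ultrafilter_le_nhds'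
    ((hyperfilter ℕ).map (fun n => Vn w n k a)) (by
      rw [Ultrafilter.mem_map]
      refine univ_mem' fun n => ?_
      rw [mem_preimage, mem_closedBall_zero_iff]
      exact norm_Vn_le w n k a)
  exact h

theorem tendsto_V (w : WW 𝕜 r) (k a : ℕ) :
    Tendsto (fun n => Vn w n k a) (hyperfilter ℕ : Filter ℕ) (𝓝 (V w k a)) := by
  obtain ⟨x, -, hx⟩ := exists_limit w k a
  exact tendsto_nhds_limUnder ⟨x, hx⟩

theorem norm_V_le (w : WW 𝕜 r) (k a : ℕ) : ‖V w k a‖ ≤ ‖w‖ :=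
  le_of_tendsto (tendsto_V w k a).norm (Eventually.of_forall fun n => norm_Vn_le w n k a)

theorem V_add (w w' : WW 𝕜 r) (k a : ℕ) : V (w + w') k a = V w k a + V w' k a := by
  refine tendsto_nhds_unique (tendsto_V (w + w') k a) ?_
  refine ((tendsto_V w k a).add (tendsto_V w' k a)).congr fun n => ?_
  rw [Vn, Vn, Vn, av_G_add, map_add]

theorem V_smul (c : 𝕜) (w : WW 𝕜 r) (k a : ℕ) : V (c • w) k a = c • V w k a := by
  refine tendsto_nhds_unique (tendsto_V (c • w) k a) ?_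
  refine ((tendsto_V w k a).const_smul c).congr fun n => ?_
  rw [Vn, Vn, av_G_smul, map_smul]

/-- The values of the limiting step functions. -/
noncomputable def mm (w : WW 𝕜 r) (k a b : ℕ) : 𝕜 := sc r k • ext0 (V w k a) b

theorem tendsto_mm (w : WW 𝕜 r) (k a b : ℕ) :
    Tendsto (fun n => cf k (av k (G w n) a) b) (hyperfilter ℕ : Filter ℕ) (𝓝 (mm w k a b)) := by
  unfold cf mm
  exact (((continuous_ext0 b).tendsto _).comp (tendsto_V w k a)).const_smul (sc r k)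

theorem mm_consistent (w : WW 𝕜 r) {k a b : ℕ} (hb : b < 2 ^ k) :
    mm w k a b = (1 / 4 : ℝ) • (mm w (k + 1) (2 * a) (2 * b) + mm w (k + 1) (2 * a) (2 * b + 1) +
      mm w (k + 1) (2 * a + 1) (2 * b) + mm w (k + 1) (2 * a + 1) (2 * b + 1)) := by
  refine tendsto_nhds_unique (tendsto_mm w k a b) ?_
  refine (((((tendsto_mm w (k + 1) (2 * a) (2 * b)).add
    (tendsto_mm w (k + 1) (2 * a) (2 * b + 1))).add
    (tendsto_mm w (k + 1) (2 * a + 1) (2 * b))).add
    (tendsto_mm w (k + 1) (2 * a + 1) (2 * b + 1))).const_smul (1 / 4 : ℝ)).congr fun n => ?_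
  rw [cf_succ k _ hb, av_succ (integrable_G w n) k a, cf_real_smul, cf_real_smul, cf_add, cf_add,
    ← smul_add, smul_smul]
  norm_num
  abel

theorem consistent_re (w : WW 𝕜 r) : Consistent (fun k a b => RCLike.re (mm w k a b)) := by
  intro k a b _ hb
  simp only
  rw [mm_consistent w hb, RCLike.smul_re, map_add, map_add, map_add]

theorem consistent_im (w : WW 𝕜 r) : Consistent (fun k a b => RCLike.im (mm w k a b)) := by
  intro k a b _ hb
  simp only
  rw [mm_consistent w hb, RCLike.smul_im, map_add, map_add, map_add]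

theorem integral_norm_le (g : Lp 𝕜 r mu) : ∫ s, ‖g s‖ ∂mu ≤ ‖g‖ := by
  rw [integral_norm_eq_lintegral_enorm (Lp.aestronglyMeasurable g), ← eLpNorm_one_eq_lintegral_enorm,
    Lp.norm_def]
  exact ENNReal.toReal_mono (Lp.eLpNorm_ne_top g)
    (eLpNorm_le_eLpNorm_of_exponent_le Fact.out (Lp.aestronglyMeasurable g))

theorem sum_ext0_le {k : ℕ} (x : lr 𝕜 r k) :
    ((2 : ℝ) ^ k)⁻¹ * ∑ b ∈ Finset.range (2 ^ k), ‖sc r k • ext0 x b‖ ≤ ‖x‖ := by
  have h1 := integral_norm_le (T k x)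
  rw [LinearIsometry.norm_map] at h1
  have h2 : ∫ s, ‖T k x s‖ ∂mu = ∫ s, (fun b => ‖sc r k • ext0 x b‖) (q k s) ∂mu := by
    apply integral_congr_ae
    filter_upwards [T_apply_ae k x] with s hs
    rw [hs, Tfun]
  rw [h2, integral_comp_q k (fun b => ‖sc r k • ext0 x b‖), smul_eq_mul] at h1
  exact h1

theorem sum_mm_le (w : WW 𝕜 r) (k a : ℕ) :
    ((2 : ℝ) ^ k)⁻¹ * ∑ b ∈ Finset.range (2 ^ k), ‖mm w k a b‖ ≤ ‖w‖ :=
  (sum_ext0_le (V w k a)).trans (norm_V_le w k a)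

/-- The limiting step functions. -/
noncomputable def M (w : WW 𝕜 r) (k : ℕ) (z : ℝ × ℝ) : 𝕜 := mm w k (Q k z).1 (Q k z).2

theorem M_eq (w : WW 𝕜 r) (k : ℕ) (t s : ℝ) : M w k (t, s) = Tfun k (V w k (q k t)) s := rfl

theorem stronglyMeasurable_M (w : WW 𝕜 r) (k : ℕ) : StronglyMeasurable (M w k) :=
  stronglyMeasurable_comp_Q k (fun p : ℕ × ℕ => mm w k p.1 p.2)

theorem ae_tendsto_M (w : WW 𝕜 r) :
    ∀ᵐ z ∂mu2, ∃ c, Tendsto (fun k => M w k z) atTop (𝓝 c) := by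
  have h1 : ∀ᵐ z ∂mu2, ∃ c, Tendsto
      (fun k => Mt (fun k a b => RCLike.re (mm w k a b)) k z) atTop (𝓝 c) := by
    apply ae_tendsto_Mt (consistent_re w) (R := ‖w‖)
    intro k a _
    refine le_trans ?_ (sum_mm_le w k a)
    apply mul_le_mul_of_nonneg_left _ (by positivity)
    exact Finset.sum_le_sum fun b _ => RCLike.abs_re_le_norm _
  have h2 : ∀ᵐ z ∂mu2, ∃ c, Tendsto
      (fun k => Mt (fun k a b => RCLike.im (mm w k a b)) k z) atTop (𝓝 c) := by
    apply ae_tendsto_Mt (consistent_im w) (R := ‖w‖)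
    intro k a _
    refine le_trans ?_ (sum_mm_le w k a)
    apply mul_le_mul_of_nonneg_left _ (by positivity)
    exact Finset.sum_le_sum fun b _ => RCLike.abs_im_le_norm _
  filter_upwards [h1, h2] with z h3 h4
  obtain ⟨c, hc⟩ := h3
  obtain ⟨d, hd⟩ := h4
  refine ⟨(c : 𝕜) + (d : 𝕜) * RCLike.I, ?_⟩
  have h5 := ((RCLike.continuous_ofReal (K := 𝕜)).tendsto c).comp hc
  have h6 := ((RCLike.continuous_ofReal (K := 𝕜)).tendsto d).comp hd
  refine (h5.add (h6.mul_const RCLike.I)).congr fun k => ?_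
  exact RCLike.re_add_im (M w k z)

/-- The limit. -/
noncomputable def hl (w : WW 𝕜 r) (z : ℝ × ℝ) : 𝕜 := limUnder atTop (fun k => M w k z)

theorem stronglyMeasurable_hl (w : WW 𝕜 r) : StronglyMeasurable (hl w) :=
  StronglyMeasurable.limUnder (fun k => stronglyMeasurable_M w k)

theorem ae_tendsto_hl (w : WW 𝕜 r) :
    ∀ᵐ t ∂mu, ∀ᵐ s ∂mu, Tendsto (fun k => M w k (t, s)) atTop (𝓝 (hl w (t, s))) := by
  refine Measure.ae_ae_of_ae_prod
    (p := fun z : ℝ × ℝ => Tendsto (fun k => M w k z) atTop (𝓝 (hl w z))) ?_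
  filter_upwards [ae_tendsto_M w] with z hz
  exact tendsto_nhds_limUnder hz

theorem eLpNorm_M (w : WW 𝕜 r) (k : ℕ) (t : ℝ) :
    eLpNorm (fun s => M w k (t, s)) r mu = ENNReal.ofReal ‖V w k (q k t)‖ := by
  have h1 : ‖T k (V w k (q k t))‖ = ‖V w k (q k t)‖ := LinearIsometry.norm_map _ _
  rw [← h1, ofReal_norm, Lp.enorm_def]
  exact eLpNorm_congr_ae (T_apply_ae k (V w k (q k t))).symm

theorem eLpNorm_hl (w : WW 𝕜 r) :
    ∀ᵐ t ∂mu, eLpNorm (fun s => hl w (t, s)) r mu ≤ ENNReal.ofReal ‖w‖ := by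
  filter_upwards [ae_tendsto_hl w] with t ht
  refine (Lp.eLpNorm_lim_le_liminf_eLpNorm (p := r) (μ := mu) (f := fun k s => M w k (t, s))
    (fun k => ((stronglyMeasurable_M w k).comp_measurable
      (measurable_const.prodMk measurable_id)).aestronglyMeasurable) _ ht).trans ?_
  apply liminf_le_of_le
  · isBoundedDefault
  · intro b hb
    obtain ⟨k, hk⟩ := hb.exists
    refine hk.trans ?_
    rw [eLpNorm_M]
    exact ENNReal.ofReal_le_ofReal (norm_V_le w k _)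

theorem memLp_hl (w : WW 𝕜 r) : ∀ᵐ t ∂mu, MemLp (fun s => hl w (t, s)) r mu := by
  filter_upwards [eLpNorm_hl w] with t ht
  exact ⟨((stronglyMeasurable_hl w).comp_measurable
    (measurable_const.prodMk measurable_id)).aestronglyMeasurable,
    lt_of_le_of_lt ht ENNReal.ofReal_lt_top⟩

end Q97.Dyad
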