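import Pool.Agent.Q97.Linf.Lift
import Pool.Agent.Q97.Linf.Compl

set_option autoImplicit false
set_option linter.unusedSectionVars false

/-!
# `L_∞(L_r)` is complemented in the `ℓ_∞`-sum
-/

namespace Q97.Dyad

open MeasureTheory Filter Topology Set
open scoped ENNReal

/-- A map into a second countable metric space is measurable if the preimages of balls are. -/
theorem measurable_of_ball {α E : Type*} [MeasurableSpace α] [PseudoMetricSpace E]
    [SecondCountableTopology E] [MeasurableSpace E] [BorelSpace E] {φ : α → E}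
    (h : ∀ y ρ, MeasurableSet (φ ⁻¹' Metric.ball y ρ)) : Measurable φ := by
  apply measurable_of_isOpen
  intro U hU
  obtain ⟨T, hT, hTU⟩ := TopologicalSpace.isOpen_iUnion_countable
    (fun x : {x : E × ℝ // Metric.ball x.1 x.2 ⊆ U} => Metric.ball x.1.1 x.1.2)
    (fun _ => Metric.isOpen_ball)
  have h1 : U = ⋃ i ∈ T, Metric.ball i.1.1 i.1.2 := by
    rw [hTU]
    apply Subset.antisymm
    · intro x hx
      obtain ⟨ε, hε, hball⟩ := Metric.isOpen_iff.mp hU x hx
      exact mem_iUnion.mpr ⟨⟨(x, ε), hball⟩, Metric.mem_ball_self hε⟩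
    · exact iUnion_subset fun i => i.2
  rw [h1, preimage_iUnion₂]
  exact MeasurableSet.biUnion hT fun i _ => h _ _

variable {𝕜 : Type*} [RCLike 𝕜] {r : ℝ≥0∞} [Fact (1 ≤ r)] [Fact (r ≠ ∞)]

theorem measurable_eLpNorm {F : ℝ × ℝ → 𝕜} (hF : StronglyMeasurable F) :
    Measurable (fun t => eLpNorm (fun s => F (t, s)) r mu) := by
  have hr0 : r ≠ 0 := ne_of_gt (lt_of_lt_of_le (by simp) (Fact.out : 1 ≤ r))
  have h1 : (fun t => eLpNorm (fun s => F (t, s)) r mu) =
      fun t => (∫⁻ s, ‖F (t, s)‖ₑ ^ r.toReal ∂mu) ^ (1 / r.toReal) := by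
    funext t
    exact eLpNorm_eq_lintegral_rpow_enorm_toReal hr0 Fact.out
  rw [h1]
  apply Measurable.pow_const
  apply Measurable.lintegral_prod_right'
    (f := fun z : ℝ × ℝ => ‖F z‖ₑ ^ r.toReal)
  exact hF.measurable.enorm.pow_const _

theorem stronglyMeasurable_slice (w : WW 𝕜 r) (t : ℝ) :
    StronglyMeasurable (fun s => hl w (t, s)) :=
  (stronglyMeasurable_hl w).comp_measurable (measurable_const.prodMk measurable_id)

open Classical in
/-- The limit function as a function with values in `L_r`. -/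
noncomputable def Pfun (w : WW 𝕜 r) (t : ℝ) : Lp 𝕜 r mu :=
  if h : MemLp (fun s => hl w (t, s)) r mu then h.toLp _ else 0

theorem Pfun_of (w : WW 𝕜 r) {t : ℝ} (h : MemLp (fun s => hl w (t, s)) r mu) :
    Pfun w t = h.toLp _ := dif_pos h

theorem stronglyMeasurable_Pfun (w : WW 𝕜 r) : StronglyMeasurable (Pfun w) := by
  let _ : MeasurableSpace (Lp 𝕜 r mu) := borel _
  have _ : BorelSpace (Lp 𝕜 r mu) := ⟨rfl⟩
  have h1 : Measurable (Pfun w) := by
    apply measurable_of_ball
    intro y ρ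
    have hm0 : Measurable (fun t => eLpNorm (fun s => hl w (t, s)) r mu) :=
      measurable_eLpNorm (stronglyMeasurable_hl w)
    have hm1 : Measurable (fun t => eLpNorm (fun s => hl w (t, s) - y s) r mu) := by
      apply measurable_eLpNorm (F := fun z : ℝ × ℝ => hl w z - y z.2)
      exact (stronglyMeasurable_hl w).sub
        ((Lp.stronglyMeasurable y).comp_measurable measurable_snd)
    have hmem : ∀ t, MemLp (fun s => hl w (t, s)) r mu ↔
        eLpNorm (fun s => hl w (t, s)) r mu < ∞ := by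
      intro t
      constructor
      · intro h
        exact h.eLpNorm_lt_top
      · intro h
        exact ⟨(stronglyMeasurable_slice w t).aestronglyMeasurable, h⟩
    have h2 : Pfun w ⁻¹' Metric.ball y ρ =
        ({t | eLpNorm (fun s => hl w (t, s)) r mu < ∞} ∩
          {t | eLpNorm (fun s => hl w (t, s) - y s) r mu < ENNReal.ofReal ρ}) ∪
        ({t | eLpNorm (fun s => hl w (t, s)) r mu < ∞}ᶜ ∩ {t | (0 : Lp 𝕜 r mu) ∈ Metric.ball y ρ})
        := by
      ext t
      simp only [mem_preimage, mem_union, mem_inter_iff, mem_compl_iff, Set.mem_ofPred_eq]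
      by_cases ht : MemLp (fun s => hl w (t, s)) r mu
      · have ht' := (hmem t).mp ht
        have e1 : Pfun w t ∈ Metric.ball y ρ ↔
            eLpNorm (fun s => hl w (t, s) - y s) r mu < ENNReal.ofReal ρ := by
          rw [Metric.mem_ball, Pfun_of w ht, dist_eq_norm]
          have e2 : eLpNorm (fun s => hl w (t, s) - y s) r mu =
              ENNReal.ofReal ‖ht.toLp _ - y‖ := by
            rw [ofReal_norm, Lp.enorm_def]
            apply eLpNorm_congr_ae
            filter_upwards [Lp.coeFn_sub (ht.toLp _) y, ht.coeFn_toLp] with s h3 h4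
            rw [h3, Pi.sub_apply, h4]
          rw [e2, ENNReal.ofReal_lt_ofReal_iff']
          constructor
          · intro h
            exact ⟨h, lt_of_le_of_lt (norm_nonneg _) h⟩
          · exact fun h => h.1
        rw [e1]
        tauto
      · have ht' : ¬ eLpNorm (fun s => hl w (t, s)) r mu < ∞ := fun h => ht ((hmem t).mpr h)
        have e1 : Pfun w t = 0 := dif_neg ht
        rw [e1]
        tauto
    rw [h2]
    refine ((measurableSet_lt hm0 measurable_const).inter
      (measurableSet_lt hm1 measurable_const)).union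
      ((measurableSet_lt hm0 measurable_const).compl.inter ?_)
    exact MeasurableSet.const _
  exact h1.stronglyMeasurable

theorem norm_Pfun_le (w : WW 𝕜 r) : ∀ᵐ t ∂mu, ‖Pfun w t‖ ≤ ‖w‖ := by
  filter_upwards [eLpNorm_hl w, memLp_hl w] with t h1 h2
  rw [Pfun_of w h2, Lp.norm_toLp]
  exact ENNReal.toReal_le_of_le_ofReal (norm_nonneg _) h1

theorem memLp_Pfun (w : WW 𝕜 r) : MemLp (Pfun w) ∞ mu :=
  memLp_top_of_bound (stronglyMeasurable_Pfun w).aestronglyMeasurable ‖w‖ (norm_Pfun_le w)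

theorem M_add (w w' : WW 𝕜 r) (k : ℕ) (z : ℝ × ℝ) : M (w + w') k z = M w k z + M w' k z := by
  rw [M, M, M, mm, mm, mm, V_add, ext0_add, smul_add]

theorem M_smul (c : 𝕜) (w : WW 𝕜 r) (k : ℕ) (z : ℝ × ℝ) : M (c • w) k z = c • M w k z := by
  rw [M, M, mm, mm, V_smul, ext0_smul, smul_comm]

theorem Pfun_add (w w' : WW 𝕜 r) : ∀ᵐ t ∂mu, Pfun (w + w') t = Pfun w t + Pfun w' t := by
  filter_upwards [memLp_hl w, memLp_hl w', memLp_hl (w + w'), ae_tendsto_hl w, ae_tendsto_hl w',
    ae_tendsto_hl (w + w')] with t h1 h2 h3 h4 h5 h6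
  rw [Pfun_of w h1, Pfun_of w' h2, Pfun_of (w + w') h3, ← MemLp.toLp_add]
  apply MemLp.toLp_congr
  filter_upwards [h4, h5, h6] with s h7 h8 h9
  refine tendsto_nhds_unique h9 ?_
  refine (h7.add h8).congr fun k => ?_
  rw [M_add]

theorem Pfun_smul (c : 𝕜) (w : WW 𝕜 r) : ∀ᵐ t ∂mu, Pfun (c • w) t = c • Pfun w t := by
  filter_upwards [memLp_hl w, memLp_hl (c • w), ae_tendsto_hl w,
    ae_tendsto_hl (c • w)] with t h1 h3 h4 h6
  rw [Pfun_of w h1, Pfun_of (c • w) h3, ← MemLp.toLp_const_smul]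
  apply MemLp.toLp_congr
  filter_upwards [h4, h6] with s h7 h9
  refine tendsto_nhds_unique h9 ?_
  refine (h7.const_smul c).congr fun k => ?_
  rw [M_smul]

theorem norm_top_le {E : Type*} [NormedAddCommGroup E] (f : Lp E ∞ mu) {c : ℝ} (hc : 0 ≤ c)
    (h : ∀ᵐ t ∂mu, ‖f t‖ ≤ c) : ‖f‖ ≤ c := by
  rw [Lp.norm_def, eLpNorm_exponent_top]
  exact ENNReal.toReal_le_of_le_ofReal hc (eLpNormEssSup_le_of_ae_bound h)

theorem ae_norm_le {E : Type*} [NormedAddCommGroup E] (f : Lp E ∞ mu) : ∀ᵐ t ∂mu, ‖f t‖ ≤ ‖f‖ := by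
  have h := enorm_ae_le_eLpNormEssSup f mu
  filter_upwards [h] with t ht
  rw [Lp.norm_def, eLpNorm_exponent_top]
  have h2 : eLpNormEssSup f mu ≠ ∞ := by
    rw [← eLpNorm_exponent_top]; exact Lp.eLpNorm_ne_top f
  rw [← toReal_enorm]
  exact ENNReal.toReal_mono h2 ht

/-- The operator from the `ℓ_∞`-sum to `L_∞(L_r)`. -/
noncomputable def P : WW 𝕜 r →L[𝕜] Lp (Lp 𝕜 r mu) ∞ mu :=
  LinearMap.mkContinuous
    { toFun := fun w => (memLp_Pfun w).toLp _
      map_add' := fun w w' => by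
        rw [← MemLp.toLp_add]
        exact MemLp.toLp_congr _ _ (Pfun_add w w')
      map_smul' := fun c w => by
        rw [RingHom.id_apply, ← MemLp.toLp_const_smul]
        exact MemLp.toLp_congr _ _ (Pfun_smul c w) } 1
    (fun w => by
      rw [one_mul]
      apply norm_top_le _ (norm_nonneg _)
      filter_upwards [norm_Pfun_le w, (memLp_Pfun w).coeFn_toLp] with t h1 h2
      change ‖((memLp_Pfun w).toLp (Pfun w)) t‖ ≤ ‖w‖
      rw [h2]
      exact h1)

theorem P_ae (w : WW 𝕜 r) : P w =ᵐ[mu] Pfun w := (memLp_Pfun w).coeFn_toLp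

section AvL

variable {E : Type*} [NormedAddCommGroup E] [NormedSpace ℝ E] [NormedSpace 𝕜 E]
  [SMulCommClass ℝ 𝕜 E]

theorem integrable_top (f : Lp E ∞ mu) : Integrable f mu := (Lp.memLp f).integrable (by simp)

/-- Averaging as a continuous linear map. -/
noncomputable def avL (k a : ℕ) : Lp E ∞ mu →L[𝕜] E :=
  LinearMap.mkContinuous
    { toFun := fun f => av k f a
      map_add' := fun f g => by
        rw [← av_add k a (integrable_top f) (integrable_top g)]
        exact av_congr (Lp.coeFn_add f g) a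
      map_smul' := fun c f => by
        rw [RingHom.id_apply, av_congr (Lp.coeFn_smul c f) a, av, av]
        have : ∫ t in C k a, (c • (f : ℝ → E)) t ∂mu = c • ∫ t in C k a, f t ∂mu :=
          integral_smul c _
        rw [this, smul_comm] } 1
    (fun f => by
      rw [one_mul]
      exact norm_av_le k a (norm_nonneg _) (ae_norm_le f))

theorem avL_apply (k a : ℕ) (f : Lp E ∞ mu) : avL (𝕜 := 𝕜) k a f = av k f a := rfl

end AvL

/-- The operator from `L_∞(L_r)` to the `ℓ_∞`-sum. -/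
noncomputable def R : Lp (Lp 𝕜 r mu) ∞ mu →L[𝕜] WW 𝕜 r :=
  mkInf (fun p => (S p.1).comp (avL (𝕜 := 𝕜) p.1 p.2)) 1 zero_le_one (fun p f => by
    rw [one_mul, ContinuousLinearMap.comp_apply]
    exact (norm_S_le _ _).trans (norm_av_le _ _ (norm_nonneg _) (ae_norm_le f)))

theorem R_apply (f : Lp (Lp 𝕜 r mu) ∞ mu) (p : ℕ × ℕ) : R f p = S p.1 (av p.1 f p.2) := rfl

theorem av_clm {E F : Type*} [NormedAddCommGroup E] [NormedSpace ℝ E] [NormedSpace 𝕜 E]
    [NormedAddCommGroup F] [NormedSpace ℝ F] [NormedSpace 𝕜 F] [CompleteSpace E] [CompleteSpace F]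
    [IsScalarTower ℝ 𝕜 E] [IsScalarTower ℝ 𝕜 F]
    (L : E →L[𝕜] F) (k a : ℕ) {f : ℝ → E} (hf : Integrable f mu) :
    av k (fun t => L (f t)) a = L (av k f a) := by
  unfold av
  rw [L.integral_comp_comm hf.integrableOn, map_real_smul L L.continuous]

theorem V_R (f : Lp (Lp 𝕜 r mu) ∞ mu) (k a : ℕ) : V (R f) k a = S k (av k f a) := by
  refine tendsto_nhds_unique (tendsto_V (R f) k a) ?_
  apply tendsto_const_nhds.congr'
  have h1 : ∀ᶠ n in (hyperfilter ℕ : Filter ℕ), k ≤ n := by
    have := (eventually_ge_atTop k)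
    exact Nat.hyperfilter_le_atTop this
  filter_upwards [h1] with n hn
  have hint : Integrable (fun t => av n f (q n t)) mu :=
    Integrable.of_bound (((StronglyMeasurable.of_discrete
      (f := fun j => av n (f : ℝ → Lp 𝕜 r mu) j))).comp_measurable
      (measurable_q n)).aestronglyMeasurable ‖f‖
      (Eventually.of_forall fun t => norm_av_le n _ (norm_nonneg _) (ae_norm_le f))
  have h2 : G (R f) n = fun t => ((T n).toContinuousLinearMap.comp (S n)) (av n f (q n t)) := by
    funext t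
    rw [G, R_apply]
    rfl
  rw [Vn, h2, av_clm ((T n).toContinuousLinearMap.comp (S n)) k a hint, av_av hn (integrable_top f)]
  exact (S_T_S hn _).symm

theorem M_R (f : Lp (Lp 𝕜 r mu) ∞ mu) (k : ℕ) (t : ℝ) :
    (fun s => M (R f) k (t, s)) =ᵐ[mu] T k (S k (av k f (q k t))) := by
  have h := T_apply_ae k (S k (av k f (q k t)))
  filter_upwards [h] with s hs
  rw [M_eq, V_R, hs]

theorem Pfun_R (f : Lp (Lp 𝕜 r mu) ∞ mu) : Pfun (R f) =ᵐ[mu] f := by
  filter_upwards [memLp_hl (R f), ae_tendsto_hl (R f), ae_tendsto_av (integrable_top f)]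
    with t h1 h2 h3
  rw [Pfun_of _ h1]
  apply Lp.ext
  refine h1.coeFn_toLp.trans ?_
  -- `T_k S_k (av_k f - f t) → 0` in `L_r`
  have h4 : Tendsto (fun k => T k (S k (av k f (q k t) - f t))) atTop (𝓝 0) := by
    rw [tendsto_zero_iff_norm_tendsto_zero]
    have h5 : Tendsto (fun k => ‖av k f (q k t) - f t‖) atTop (𝓝 0) := by
      rw [← tendsto_zero_iff_norm_tendsto_zero, tendsto_sub_nhds_zero_iff]
      exact h3
    refine squeeze_zero (fun k => norm_nonneg _) (fun k => ?_) h5
    rw [LinearIsometry.norm_map]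
    exact norm_S_le _ _
  obtain ⟨ns, hns, hlim⟩ := (tendstoInMeasure_of_tendsto_Lp h4).exists_seq_tendsto_ae
  have h6 : ∀ᵐ s ∂mu, ∀ k, M (R f) k (t, s) = T k (S k (av k f (q k t) - f t)) s +
      av k (f t) (q k s) := by
    rw [ae_all_iff]
    intro k
    have e : T k (S k (av k f (q k t))) = T k (S k (av k f (q k t) - f t)) + T k (S k (f t)) := by
      rw [← map_add, ← map_add, sub_add_cancel]
    filter_upwards [M_R f k t, Lp.coeFn_add (T k (S k (av k f (q k t) - f t))) (T k (S k (f t))),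
      T_S_ae k (f t)] with s a1 a2 a3
    rw [a1, e, a2, Pi.add_apply, a3]
  filter_upwards [h2, hlim, h6, ae_tendsto_av (Lp_integrable (f t)), Lp.coeFn_zero 𝕜 r mu]
    with s b1 b2 b3 b4 b5
  have c1 : Tendsto (fun i => M (R f) (ns i) (t, s)) atTop (𝓝 (hl (R f) (t, s))) :=
    b1.comp hns.tendsto_atTop
  have c2 : Tendsto (fun i => M (R f) (ns i) (t, s)) atTop (𝓝 (f t s)) := by
    have c3 := b2.add (b4.comp hns.tendsto_atTop)
    rw [b5, Pi.zero_apply, zero_add] at c3
    refine c3.congr fun i => ?_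
    rw [b3]
    rfl
  exact tendsto_nhds_unique c1 c2

theorem P_R (f : Lp (Lp 𝕜 r mu) ∞ mu) : P (R f) = f := by
  apply Lp.ext
  exact (P_ae (R f)).trans (Pfun_R f)

/-- `L_∞(L_r)` is complemented in the `ℓ_∞`-sum. -/
theorem compl_X_W : Compl 𝕜 (Lp (Lp 𝕜 r mu) ∞ mu) (WW 𝕜 r) := ⟨R, P, P_R⟩

end Q97.Dyad
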