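import Pool.Agent.Q97.Linf.Dyad

set_option autoImplicit false
set_option linter.unusedSectionVars false

/-!
# The operators between `L_r` and the finite-dimensional spaces `ℓ_r^{2^k}`
-/

namespace Q97.Dyad

open MeasureTheory Filter Topology Set
open scoped ENNReal

section Real

variable {r : ℝ≥0∞}

theorem rho_pos [hr1 : Fact (1 ≤ r)] [hr : Fact (r ≠ ∞)] : 0 < r.toReal :=
  ENNReal.toReal_pos (ne_of_gt (lt_of_lt_of_le (by simp) hr1.out)) hr.out

theorem one_le_rho [hr1 : Fact (1 ≤ r)] [hr : Fact (r ≠ ∞)] : 1 ≤ r.toReal := by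
  rw [← ENNReal.toReal_one]
  exact ENNReal.toReal_mono hr.out hr1.out

/-- The scaling factor `2^(k/r)`. -/
noncomputable def sc (r : ℝ≥0∞) (k : ℕ) : ℝ := ((2 : ℝ) ^ k) ^ (1 / r.toReal)

theorem sc_pos (r : ℝ≥0∞) (k : ℕ) : 0 < sc r k := Real.rpow_pos_of_pos (by positivity) _

theorem sc_rpow [Fact (1 ≤ r)] [Fact (r ≠ ∞)] (k : ℕ) : sc r k ^ r.toReal = 2 ^ k := by
  unfold sc
  rw [← Real.rpow_mul (by positivity), one_div_mul_cancel (rho_pos (r := r)).ne', Real.rpow_one]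

end Real

variable {𝕜 : Type*} [RCLike 𝕜] {r : ℝ≥0∞} [Fact (1 ≤ r)] [Fact (r ≠ ∞)]

/-- The finite-dimensional spaces. -/
abbrev lr (𝕜 : Type*) (r : ℝ≥0∞) (k : ℕ) : Type _ := PiLp r (fun _ : Fin (2 ^ k) => 𝕜)

omit [Fact (1 ≤ r)] [Fact (r ≠ ∞)] in
/-- Extension of a finite sequence by zero. -/
noncomputable def ext0 {k : ℕ} (x : lr 𝕜 r k) (a : ℕ) : 𝕜 :=
  if h : a < 2 ^ k then x ⟨a, h⟩ else 0

theorem norm_rpow_lr {k : ℕ} (x : lr 𝕜 r k) :
    ‖x‖ ^ r.toReal = ∑ a ∈ Finset.range (2 ^ k), ‖ext0 x a‖ ^ r.toReal := by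
  rw [PiLp.norm_eq_sum rho_pos, ← Real.rpow_mul (by positivity),
    one_div_mul_cancel (rho_pos (r := r)).ne', Real.rpow_one, Finset.sum_range]
  apply Finset.sum_congr rfl
  intro i _
  rw [ext0, dif_pos i.2]

theorem Lp_norm_rpow (g : Lp 𝕜 r mu) : ‖g‖ ^ r.toReal = ∫ s, ‖g s‖ ^ r.toReal ∂mu := by
  rw [Lp.norm_def, (Lp.memLp g).eLpNorm_eq_integral_rpow_norm
    (ne_of_gt (lt_of_lt_of_le (by simp) (Fact.out : 1 ≤ r))) Fact.out,
    ENNReal.toReal_ofReal (by positivity), ← Real.rpow_mul (by positivity),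
    inv_mul_cancel₀ (rho_pos (r := r)).ne', Real.rpow_one]

/-- The function belonging to a finite sequence. -/
noncomputable def Tfun (k : ℕ) (x : lr 𝕜 r k) (s : ℝ) : 𝕜 := sc r k • ext0 x (q k s)

theorem measurable_Tfun (k : ℕ) (x : lr 𝕜 r k) : StronglyMeasurable (Tfun k x) := by
  have h : Tfun k x = (fun a => sc r k • ext0 x a) ∘ q k := rfl
  rw [h]
  exact (StronglyMeasurable.of_discrete).comp_measurable (measurable_q k)

theorem norm_ext0_le {k : ℕ} (x : lr 𝕜 r k) (a : ℕ) : ‖ext0 x a‖ ≤ ‖x‖ := by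
  unfold ext0
  split_ifs with h
  · exact PiLp.norm_apply_le x _
  · rw [norm_zero]; exact norm_nonneg _

theorem memLp_Tfun (k : ℕ) (x : lr 𝕜 r k) : MemLp (Tfun k x) r mu := by
  apply MemLp.of_bound (measurable_Tfun k x).aestronglyMeasurable (sc r k * ‖x‖)
  filter_upwards with s
  rw [Tfun, norm_smul, Real.norm_eq_abs, abs_of_pos (sc_pos r k)]
  exact mul_le_mul_of_nonneg_left (norm_ext0_le x _) (sc_pos r k).le

theorem integral_Tfun (k : ℕ) (x : lr 𝕜 r k) :
    ∫ s, ‖Tfun k x s‖ ^ r.toReal ∂mu = ‖x‖ ^ r.toReal := by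
  have h1 : ∀ s, ‖Tfun k x s‖ ^ r.toReal =
      (fun a => 2 ^ k * ‖ext0 x a‖ ^ r.toReal) (q k s) := by
    intro s
    rw [Tfun, norm_smul, Real.norm_eq_abs, abs_of_pos (sc_pos r k),
      Real.mul_rpow (sc_pos r k).le (norm_nonneg _), sc_rpow]
  rw [integral_congr_ae (Eventually.of_forall h1),
    integral_comp_q k (fun a => 2 ^ k * ‖ext0 x a‖ ^ r.toReal), ← Finset.mul_sum, smul_eq_mul,
    ← mul_assoc, inv_mul_cancel₀ (by positivity), one_mul, norm_rpow_lr]

/-- The isometric embedding of `ℓ_r^{2^k}` into `L_r`. -/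
noncomputable def T (k : ℕ) : lr 𝕜 r k →ₗᵢ[𝕜] Lp 𝕜 r mu where
  toFun x := (memLp_Tfun k x).toLp _
  map_add' x y := by
    rw [← MemLp.toLp_add]
    congr 1
    ext s
    simp only [Tfun, Pi.add_apply, ext0]
    split_ifs
    · rw [← smul_add]; rfl
    · simp
  map_smul' c x := by
    rw [RingHom.id_apply, ← MemLp.toLp_const_smul]
    congr 1
    ext s
    simp only [Tfun, Pi.smul_apply, ext0]
    split_ifs
    · rw [smul_comm]; rfl
    · simp
  norm_map' x := by
    change ‖(memLp_Tfun k x).toLp (Tfun k x)‖ = ‖x‖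
    have h1 := Lp_norm_rpow ((memLp_Tfun k x).toLp (Tfun k x))
    have h2 : ∫ s, ‖(memLp_Tfun k x).toLp (Tfun k x) s‖ ^ r.toReal ∂mu =
        ∫ s, ‖Tfun k x s‖ ^ r.toReal ∂mu := by
      apply integral_congr_ae
      filter_upwards [MemLp.coeFn_toLp (memLp_Tfun k x)] with s hs
      rw [hs]
    rw [h2, integral_Tfun] at h1
    exact Real.rpow_left_injOn (rho_pos (r := r)).ne' (norm_nonneg _) (norm_nonneg _) h1

theorem T_apply_ae (k : ℕ) (x : lr 𝕜 r k) : T k x =ᵐ[mu] Tfun k x :=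
  MemLp.coeFn_toLp (memLp_Tfun k x)

theorem Lp_integrable (g : Lp 𝕜 r mu) : Integrable g mu :=
  (Lp.memLp g).integrable Fact.out

theorem integral_eq_sum_av {E : Type*} [NormedAddCommGroup E] [NormedSpace ℝ E] [CompleteSpace E]
    (k : ℕ) {f : ℝ → E} (hf : Integrable f mu) :
    ((2 : ℝ) ^ k)⁻¹ • ∑ a ∈ Finset.range (2 ^ k), av k f a = ∫ t, f t ∂mu := by
  have h := setIntegral_av_comp_q k hf univ
  rw [preimage_univ, Measure.restrict_univ, integral_comp_q] at h
  exact h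

/-- Jensen's inequality on a dyadic interval. -/
theorem norm_av_rpow_le (k : ℕ) {a : ℕ} (ha : a < 2 ^ k) (g : Lp 𝕜 r mu) :
    ‖av k g a‖ ^ r.toReal ≤ av k (fun s => ‖g s‖ ^ r.toReal) a := by
  have h0 : mu (C k a) ≠ 0 := by
    rw [mu_C ha]
    exact (ENNReal.ofReal_pos.mpr (by positivity)).ne'
  have h1 := (convexOn_rpow (one_le_rho (r := r))).map_set_average_le (μ := mu) (t := C k a)
    (f := fun s => ‖g s‖) (Real.continuous_rpow_const rho_pos.le).continuousOn isClosed_Ici h0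
    (measure_ne_top _ _) (Eventually.of_forall fun s => norm_nonneg _)
    (Lp_integrable g).norm.integrableOn
    ((Lp.memLp g).integrable_norm_rpow'.integrableOn)
  rw [setAverage_eq, setAverage_eq, real_mu_C ha, inv_inv] at h1
  refine le_trans ?_ h1
  apply Real.rpow_le_rpow (norm_nonneg _) _ rho_pos.le
  unfold av
  rw [norm_smul, norm_pow, Real.norm_eq_abs, abs_of_pos (by norm_num : (0 : ℝ) < 2), smul_eq_mul]
  exact mul_le_mul_of_nonneg_left (norm_integral_le_integral_norm _) (by positivity)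

/-- The coordinates of the projection onto `ℓ_r^{2^k}`. -/
noncomputable def Scoord (k : ℕ) (g : Lp 𝕜 r mu) : lr 𝕜 r k :=
  WithLp.toLp r fun i : Fin (2 ^ k) => (sc r k)⁻¹ • av k g i

theorem Scoord_apply (k : ℕ) (g : Lp 𝕜 r mu) (i : Fin (2 ^ k)) :
    Scoord k g i = (sc r k)⁻¹ • av k g i := rfl

theorem norm_Scoord_le (k : ℕ) (g : Lp 𝕜 r mu) : ‖Scoord k g‖ ≤ ‖g‖ := by
  rw [← Real.rpow_le_rpow_iff (norm_nonneg _) (norm_nonneg _) (rho_pos (r := r)), norm_rpow_lr,
    Lp_norm_rpow, ← integral_eq_sum_av k (Lp.memLp g).integrable_norm_rpow', Finset.smul_sum]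
  apply Finset.sum_le_sum
  intro a ha
  rw [Finset.mem_range] at ha
  rw [ext0, dif_pos ha, Scoord_apply, norm_smul, norm_inv, Real.norm_eq_abs,
    abs_of_pos (sc_pos r k), Real.mul_rpow (inv_nonneg.mpr (sc_pos r k).le) (norm_nonneg _),
    Real.inv_rpow (sc_pos r k).le, sc_rpow, smul_eq_mul]
  exact mul_le_mul_of_nonneg_left (norm_av_rpow_le k ha g) (by positivity)

theorem av_add {E : Type*} [NormedAddCommGroup E] [NormedSpace ℝ E] {f g : ℝ → E} (k a : ℕ)
    (hf : Integrable f mu) (hg : Integrable g mu) : av k (fun t => f t + g t) a =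
    av k f a + av k g a := by
  unfold av
  rw [integral_add hf.integrableOn hg.integrableOn, smul_add]

theorem av_smul {f : ℝ → 𝕜} (k a : ℕ) (c : 𝕜) : av k (fun t => c • f t) a =
    c • av k f a := by
  unfold av
  rw [integral_smul, smul_comm]

/-- The projection of `L_r` onto `ℓ_r^{2^k}`. -/
noncomputable def S (k : ℕ) : Lp 𝕜 r mu →L[𝕜] lr 𝕜 r k :=
  LinearMap.mkContinuous
    { toFun := Scoord k
      map_add' := fun f g => by
        ext i
        rw [PiLp.add_apply, Scoord_apply, Scoord_apply, Scoord_apply, ← smul_add,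
          ← av_add k i (Lp_integrable f) (Lp_integrable g), av_congr (Lp.coeFn_add f g)]
        rfl
      map_smul' := fun c f => by
        ext i
        rw [PiLp.smul_apply, Scoord_apply, Scoord_apply, RingHom.id_apply, smul_comm,
          ← av_smul, av_congr (Lp.coeFn_smul c f)]
        rfl } 1 (fun g => by rw [one_mul]; exact norm_Scoord_le k g)

theorem S_apply (k : ℕ) (g : Lp 𝕜 r mu) (i : Fin (2 ^ k)) : S k g i = (sc r k)⁻¹ • av k g i := rfl

theorem norm_S_le (k : ℕ) (g : Lp 𝕜 r mu) : ‖S k g‖ ≤ ‖g‖ := norm_Scoord_le k g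

theorem S_T (k : ℕ) (x : lr 𝕜 r k) : S k (T k x) = x := by
  ext i
  rw [S_apply, av_congr (T_apply_ae k x)]
  have h1 : av k (Tfun k x) i = av k (fun _ => sc r k • x i) i := by
    unfold av
    congr 1
    apply setIntegral_congr_fun (measurableSet_C k i)
    intro s hs
    rw [mem_C] at hs
    rw [Tfun, hs, ext0, dif_pos i.2]
  rw [h1, av_const k i.2, smul_smul, inv_mul_cancel₀ (sc_pos r k).ne', one_smul]

theorem T_S_ae (k : ℕ) (g : Lp 𝕜 r mu) : T k (S k g) =ᵐ[mu] fun s => av k g (q k s) := by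
  filter_upwards [T_apply_ae k (S k g), ae_q_lt k] with s hs hlt
  rw [hs, Tfun, ext0, dif_pos hlt, S_apply, smul_smul, mul_inv_cancel₀ (sc_pos r k).ne', one_smul]

theorem S_T_S {k n : ℕ} (h : k ≤ n) (g : Lp 𝕜 r mu) : S k (T n (S n g)) = S k g := by
  ext i
  rw [S_apply, S_apply, av_congr (T_S_ae n g), av_av h (Lp_integrable g)]

end Q97.Dyad
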